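import Mathlib
import Pool.Agent.BNR.Defs

/-!
BNS: explicit Noether normalization for matrix semi-invariants (left-right action of
`SL_n × SL_n` on `m`-tuples of `n × n` matrices).  Common definitions.

Overview.  `PT m n` = polynomial functions on `m`-tuples of matrices, `IsSemi f` = invariance,
`dY Y` = the explicit invariant `det (∑ X_e ⊗ Y_e)`.  If finitely many tuples `Y c` hit every
nc-full tuple `L` (i.e. some `det (∑ L_e ⊗ Y_e) ≠ 0`), then every semi-invariant is integral over
`ℂ[dY (Y c) : c]`.  Proof: a tuple which is not nc-full is in the null cone (`Nlc`, `Lin`), hence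
(Nullstellensatz) powers of homogeneous invariants lie in the ideal of the `dY (Y c)`; a Reynolds
operator exists because of the Fischer inner product (`FisA`, `FisB`, `Prj`, `Rey`); Hilbert's
argument (`HilA`, `HilB`) does the rest.
-/

set_option autoImplicit false

namespace Pool.Agent.BNS

open MvPolynomial Matrix

/-- polynomial functions on `m`-tuples of `n × n` matrices -/
abbrev PT (m n : ℕ) := MvPolynomial (Fin m × Fin n × Fin n) ℂ

/-- the value of a polynomial function at a tuple -/
noncomputable def val {m n : ℕ} (f : PT m n) (A : Fin m → Matrix (Fin n) (Fin n) ℂ) : ℂ :=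
  eval (fun v : Fin m × Fin n × Fin n => A v.1 v.2.1 v.2.2) f

/-- `f` is invariant under `A ↦ g A h`, `g`, `h` of determinant one -/
def IsSemi {m n : ℕ} (f : PT m n) : Prop :=
  ∀ g h : Matrix (Fin n) (Fin n) ℂ, g.det = 1 → h.det = 1 →
    ∀ A : Fin m → Matrix (Fin n) (Fin n) ℂ, val f (fun e => g * A e * h) = val f A

/-- the generic matrices -/
noncomputable def gen {m n : ℕ} (e : Fin m) : Matrix (Fin n) (Fin n) (PT m n) :=
  Matrix.of fun i j => X (e, i, j)

/-- the explicit invariant `det (∑ X_e ⊗ Y_e)` -/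
noncomputable def dY {m n : ℕ} {κ : Type*} [Fintype κ] [DecidableEq κ]
    (Y : Fin m → Matrix κ κ ℂ) : PT m n :=
  (∑ e, kroneckerMap (· * ·) (gen (n := n) e) ((Y e).map C)).det

section lin

variable {σ : Type*}

/-- the Fischer inner product `∑ α! conj(f_α) g_α` -/
noncomputable def fis (f g : MvPolynomial σ ℂ) : ℂ :=
  ∑ a ∈ f.support, ((a.prod fun _ k => k.factorial : ℕ) : ℂ) *
    (starRingEnd ℂ (coeff a f) * coeff a g)

variable [Fintype σ]

/-- the substitution `X i ↦ ∑ j, M i j X j` -/
noncomputable def sub (M : Matrix σ σ ℂ) : MvPolynomial σ ℂ →ₐ[ℂ] MvPolynomial σ ℂ :=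
  aeval fun i => ∑ j, C (M i j) * X j

/-- the algebra of polynomials invariant under the substitutions of a set of matrices -/
noncomputable def Inv (S : Set (Matrix σ σ ℂ)) : Subalgebra ℂ (MvPolynomial σ ℂ) where
  carrier := {f | ∀ M ∈ S, sub M f = f}
  mul_mem' := by
    intro f g hf hg M hM
    rw [map_mul, hf M hM, hg M hM]
  add_mem' := by
    intro f g hf hg M hM
    rw [map_add, hf M hM, hg M hM]
  algebraMap_mem' := by
    intro c M _
    exact (sub M).commutes c

theorem mem_Inv {S : Set (Matrix σ σ ℂ)} {f : MvPolynomial σ ℂ} :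
    f ∈ Inv S ↔ ∀ M ∈ S, sub M f = f := Iff.rfl

end lin

/-- the matrix of `A ↦ g A h` on the coordinates: `X (e,i,j) ↦ ∑ k l, g i k * X (e,k,l) * h l j` -/
def lrM (m : ℕ) {n : ℕ} (g h : Matrix (Fin n) (Fin n) ℂ) :
    Matrix (Fin m × Fin n × Fin n) (Fin m × Fin n × Fin n) ℂ :=
  Matrix.of fun v w => if v.1 = w.1 then g v.2.1 w.2.1 * h w.2.2 v.2.2 else 0

/-- the matrices of the left-right action -/
def lrS (m n : ℕ) : Set (Matrix (Fin m × Fin n × Fin n) (Fin m × Fin n × Fin n) ℂ) :=
  {M | ∃ g h : Matrix (Fin n) (Fin n) ℂ, g.det = 1 ∧ h.det = 1 ∧ M = lrM m g h}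

end Pool.Agent.BNS
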