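import Mathlib
import Pool.Agent.BNS.Defs

/-!
BNS-Dtp: the explicit invariants `dY Y`.

PLAN. `val_dY`: `eval` is a ring homomorphism: `RingHom.map_det`, the image of
`∑ kroneckerMap gen (Y e).map C` is `ev A Y`.  `dY_semi`:
`ev (g A h) Y = (g ⊗ 1) * ev A Y * (h ⊗ 1)` (`Matrix.mul_kronecker_mul`), determinants
(`Matrix.det_kronecker`) are powers of `det g = 1`, `det h = 1`.  `dY_hom`: `Matrix.det_apply`,
every entry is homogeneous of degree one, products over `Fin n × κ`
(`MvPolynomial.IsHomogeneous.prod`, `IsHomogeneous.sum`, sign: `Units.smul_def`, `zsmul`).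
-/

set_option autoImplicit false

namespace Pool.Agent.BNS

open MvPolynomial Matrix

variable {m n : ℕ} {κ : Type*} [Fintype κ] [DecidableEq κ]

theorem val_dY (Y : Fin m → Matrix κ κ ℂ) (A : Fin m → Matrix (Fin n) (Fin n) ℂ) :
    val (dY Y) A = (BNR.ev A Y).det := by
  unfold val dY BNR.ev
  rw [RingHom.map_det]
  congr 1
  ext p q
  rw [RingHom.mapMatrix_apply, Matrix.map_apply, Matrix.sum_apply, Matrix.sum_apply, map_sum]
  refine Finset.sum_congr rfl fun e _ => ?_
  simp [gen, kroneckerMap_apply]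

private theorem ev_mul (Y : Fin m → Matrix κ κ ℂ) (A : Fin m → Matrix (Fin n) (Fin n) ℂ)
    (g h : Matrix (Fin n) (Fin n) ℂ) :
    BNR.ev (fun e => g * A e * h) Y =
      kroneckerMap (· * ·) g (1 : Matrix κ κ ℂ) * BNR.ev A Y *
        kroneckerMap (· * ·) h (1 : Matrix κ κ ℂ) := by
  unfold BNR.ev
  rw [Finset.mul_sum, Finset.sum_mul]
  refine Finset.sum_congr rfl fun e _ => ?_
  have h1 := Matrix.mul_kronecker_mul g (A e) (1 : Matrix κ κ ℂ) (Y e)
  have h2 := Matrix.mul_kronecker_mul (g * A e) h (Y e) (1 : Matrix κ κ ℂ)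
  rw [one_mul] at h1
  rw [mul_one] at h2
  exact h2.trans (by rw [h1])

theorem dY_semi (Y : Fin m → Matrix κ κ ℂ) : IsSemi (dY (n := n) Y) := by
  intro g h hg hh A
  rw [val_dY, val_dY, ev_mul, Matrix.det_mul, Matrix.det_mul]
  have h1 : (kroneckerMap (· * ·) g (1 : Matrix κ κ ℂ)).det = 1 := by
    have := Matrix.det_kronecker g (1 : Matrix κ κ ℂ)
    rw [hg, Matrix.det_one, one_pow, one_pow, one_mul] at this
    exact this
  have h2 : (kroneckerMap (· * ·) h (1 : Matrix κ κ ℂ)).det = 1 := by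
    have := Matrix.det_kronecker h (1 : Matrix κ κ ℂ)
    rw [hh, Matrix.det_one, one_pow, one_pow, one_mul] at this
    exact this
  rw [h1, h2, one_mul, mul_one]

theorem dY_hom (Y : Fin m → Matrix κ κ ℂ) :
    (dY (n := n) Y).IsHomogeneous (n * Fintype.card κ) := by
  unfold dY
  rw [Matrix.det_apply]
  refine MvPolynomial.IsHomogeneous.sum _ _ _ fun σ _ => ?_
  have hp : (∏ i : Fin n × κ, (∑ e, kroneckerMap (· * ·) (gen (n := n) e) ((Y e).map C)) (σ i) i
      : PT m n).IsHomogeneous (∑ _i : Fin n × κ, 1) := by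
    refine MvPolynomial.IsHomogeneous.prod _ _ _ fun i _ => ?_
    rw [Matrix.sum_apply]
    refine MvPolynomial.IsHomogeneous.sum _ _ _ fun e _ => ?_
    have h1 := (MvPolynomial.isHomogeneous_X ℂ ((e, (σ i).1, i.1) : Fin m × Fin n × Fin n)).mul
      (MvPolynomial.isHomogeneous_C (Fin m × Fin n × Fin n) (Y e (σ i).2 i.2))
    exact h1
  have hc : (∑ _i : Fin n × κ, 1) = n * Fintype.card κ := by
    simp
  rw [hc] at hp
  rw [Units.smul_def]
  exact (MvPolynomial.homogeneousSubmodule (Fin m × Fin n × Fin n) ℂ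
    (n * Fintype.card κ)).toAddSubgroup.zsmul_mem hp _

end Pool.Agent.BNS
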