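import Mathlib
import Pool.Agent.BNS.Defs

/-!
BNS-Grd: the semi-invariants are the invariants of the substitutions `lrM g h`.
-/

set_option autoImplicit false

namespace Pool.Agent.BNS

open MvPolynomial Matrix

variable {m n : ℕ}

private theorem grd_sum (g h : Matrix (Fin n) (Fin n) ℂ)
    (A : Fin m → Matrix (Fin n) (Fin n) ℂ) (v : Fin m × Fin n × Fin n) :
    ∑ w : Fin m × Fin n × Fin n, lrM m g h v w * A w.1 w.2.1 w.2.2 =
      (g * A v.1 * h) v.2.1 v.2.2 := by
  rw [Fintype.sum_prod_type, Finset.sum_eq_single v.1]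
  · rw [Fintype.sum_prod_type, Matrix.mul_apply, Finset.sum_comm]
    refine Finset.sum_congr rfl fun l _ => ?_
    rw [Matrix.mul_apply, Finset.sum_mul]
    refine Finset.sum_congr rfl fun k _ => ?_
    simp only [lrM, Matrix.of_apply, if_true]
    ring
  · intro e _ he
    refine Finset.sum_eq_zero fun w _ => ?_
    simp only [lrM, Matrix.of_apply]
    rw [if_neg (Ne.symm he), zero_mul]
  · intro h0
    exact absurd (Finset.mem_univ _) h0

private theorem grd_evalX {σ : Type*} [Fintype σ] (M : Matrix σ σ ℂ) (x : σ → ℂ) (v : σ) :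
    eval x (sub M (X v)) = ∑ w, M v w * x w := by
  unfold sub
  rw [aeval_X, map_sum]
  refine Finset.sum_congr rfl fun w _ => ?_
  rw [map_mul, eval_C, eval_X]

theorem val_sub (g h : Matrix (Fin n) (Fin n) ℂ) (f : PT m n)
    (A : Fin m → Matrix (Fin n) (Fin n) ℂ) :
    val (sub (lrM m g h) f) A = val f (fun e => g * A e * h) := by
  induction f using MvPolynomial.induction_on with
  | C a =>
    have h1 : sub (lrM m g h) (C a) = C a := (sub (lrM m g h)).commutes a
    rw [h1]
    unfold val
    rw [eval_C, eval_C]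
  | add p q hp hq =>
    unfold val at hp hq ⊢
    rw [map_add, map_add, map_add, hp, hq]
  | mul_X p v hp =>
    unfold val at hp ⊢
    rw [map_mul, map_mul, map_mul, hp, eval_X, grd_evalX]
    congr 1
    exact grd_sum g h A v

theorem semi_iff (f : PT m n) : IsSemi f ↔ f ∈ Inv (lrS m n) := by
  constructor
  · rintro hf M ⟨g, h, hg, hh, rfl⟩
    refine MvPolynomial.funext fun x => ?_
    have h1 := val_sub g h f (fun e => Matrix.of fun i j => x (e, i, j))
    rw [hf g h hg hh] at h1
    exact h1
  · intro hf g h hg hh A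
    rw [← val_sub, hf (lrM m g h) ⟨g, h, hg, hh, rfl⟩]

theorem lr_star (M : Matrix (Fin m × Fin n × Fin n) (Fin m × Fin n × Fin n) ℂ)
    (hM : M ∈ lrS m n) : Mᴴ ∈ lrS m n := by
  obtain ⟨g, h, hg, hh, rfl⟩ := hM
  refine ⟨gᴴ, hᴴ, ?_, ?_, ?_⟩
  · rw [Matrix.det_conjTranspose, hg, star_one]
  · rw [Matrix.det_conjTranspose, hh, star_one]
  · ext v w
    rw [Matrix.conjTranspose_apply]
    simp only [lrM, Matrix.of_apply, Matrix.conjTranspose_apply]
    by_cases hvw : v.1 = w.1
    · rw [if_pos hvw.symm, if_pos hvw, star_mul']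
    · rw [if_neg (Ne.symm hvw), if_neg hvw, star_zero]

theorem inv_comp {σ : Type*} [Fintype σ] (S : Set (Matrix σ σ ℂ)) (f : MvPolynomial σ ℂ)
    (hf : f ∈ Inv S) (d : ℕ) : homogeneousComponent d f ∈ Inv S := by
  intro M hM
  have hl : ∀ i, (∑ j, C (M i j) * X j : MvPolynomial σ ℂ).IsHomogeneous 1 := by
    intro i
    refine IsHomogeneous.sum _ _ _ fun j _ => ?_
    have h1 := (isHomogeneous_C σ (M i j)).mul (isHomogeneous_X ℂ j)
    rwa [zero_add] at h1
  have hs : ∀ k, (sub M (homogeneousComponent k f)).IsHomogeneous k := by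
    intro k
    have h1 := (homogeneousComponent_isHomogeneous k f).aeval
      (fun i => ∑ j, C (M i j) * X j) hl
    rwa [one_mul] at h1
  have e1 : homogeneousComponent d (sub M f) = sub M (homogeneousComponent d f) := by
    conv_lhs => rw [← sum_homogeneousComponent f, map_sum, map_sum]
    have e2 : ∀ k ∈ Finset.range (f.totalDegree + 1),
        homogeneousComponent d (sub M (homogeneousComponent k f)) =
          if d = k then sub M (homogeneousComponent k f) else 0 := by
      intro k _
      exact homogeneousComponent_of_mem (hs k)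
    rw [Finset.sum_congr rfl e2]
    by_cases hd : d ∈ Finset.range (f.totalDegree + 1)
    · rw [Finset.sum_ite_eq, if_pos hd]
    · rw [Finset.sum_ite_eq, if_neg hd, homogeneousComponent_eq_zero d f, map_zero]
      rw [Finset.mem_range] at hd
      omega
  rw [← e1, hf M hM]

end Pool.Agent.BNS
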