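import Mathlib

/-!
BNS-HilA: Hilbert's finiteness argument, graded version.

PLAN. Let `J` be the ideal generated by all homogeneous elements of `R` of positive degree;
`MvPolynomial σ ℂ` is Noetherian (`σ` finite), so `J` is generated by a finite set of such elements
(`Submodule.fg_span_iff_fg_span_finset_subset`), enumerate them as `F : Fin r → MvPolynomial σ ℂ`
of degrees `w i ≥ 1`.  Claim by strong induction on `d`: every homogeneous `f ∈ R` of degree `d` is
in the span of the `∏ F i ^ a i`, `∑ a i * w i = d`.  `d = 0`: `f` is a constant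
(`MvPolynomial.isHomogeneous_zero_iff_totalDegree..`, `totalDegree_eq_zero_iff_eq_C`), `a = 0`.
`d > 0`: `f ∈ J`, `f = ∑ h i * F i`; apply `ρ`: `f = ∑ ρ (h i) * F i`; take the homogeneous
component of degree `d`: `f = ∑ (component of degree d - w i of ρ (h i)) * F i` (sum over `w i ≤ d`;
`MvPolynomial.homogeneousComponent`; for a product with a homogeneous element see
`homogeneousComponent_mul..` or decompose `ρ (h i) = ∑ components`), where the components are in `R`
(`hR`) and homogeneous of degree `d - w i < d`: induction, and multiply a monomial by `F i`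
(`Function.update a i (a i + 1)` or `a + Pi.single i 1`).
-/

set_option autoImplicit false

namespace Pool.Agent.BNS

open MvPolynomial

variable {σ : Type*} [Finite σ]

attribute [local instance] MvPolynomial.gradedAlgebra in
omit [Finite σ] in
private theorem hc_mul {p q : MvPolynomial σ ℂ} {i : ℕ} (hp : p.IsHomogeneous i) (d : ℕ) :
    homogeneousComponent d (p * q) =
      if i ≤ d then p * homogeneousComponent (d - i) q else 0 := by
  have h1 := DirectSum.coe_decompose_mul_of_left_mem (𝒜 := homogeneousSubmodule σ ℂ) (a := p)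
    (b := q) (i := i) d hp
  have h2 : ∀ (f : MvPolynomial σ ℂ) (k : ℕ),
      (DirectSum.decompose (homogeneousSubmodule σ ℂ) f k : MvPolynomial σ ℂ) =
        homogeneousComponent k f := fun f k => decomposition.decompose'_apply f k
  rw [h2, h2] at h1
  exact h1

theorem hilbertA (R : Subalgebra ℂ (MvPolynomial σ ℂ))
    (hR : ∀ f ∈ R, ∀ d, homogeneousComponent d f ∈ R)
    (ρ : MvPolynomial σ ℂ →ₗ[ℂ] MvPolynomial σ ℂ) (h1 : ∀ f ∈ R, ρ f = f) (h2 : ∀ f, ρ f ∈ R)
    (h3 : ∀ f ∈ R, ∀ g, ρ (f * g) = f * ρ g) :
    ∃ (r : ℕ) (F : Fin r → MvPolynomial σ ℂ) (w : Fin r → ℕ),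
      (∀ i, F i ∈ R ∧ (F i).IsHomogeneous (w i) ∧ 0 < w i) ∧
      ∀ f ∈ R, ∀ d, f.IsHomogeneous d →
        f ∈ Submodule.span ℂ {x | ∃ a : Fin r → ℕ, ∑ i, a i * w i = d ∧ x = ∏ i, F i ^ a i} := by
  classical
  have hfg : (Submodule.span (MvPolynomial σ ℂ)
      {f : MvPolynomial σ ℂ | f ∈ R ∧ ∃ d, 0 < d ∧ f.IsHomogeneous d}).FG :=
    IsNoetherian.noetherian _
  obtain ⟨s, hs, hs'⟩ := (Submodule.fg_span_iff_fg_span_finset_subset _).mp hfg
  have hF : ∀ i : Fin s.card, ((s.equivFin.symm i : s) : MvPolynomial σ ℂ) ∈ R ∧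
      ∃ d, 0 < d ∧ ((s.equivFin.symm i : s) : MvPolynomial σ ℂ).IsHomogeneous d :=
    fun i => hs (s.equivFin.symm i).2
  choose hFR w hw hFw using hF
  obtain ⟨F, hFdef⟩ : ∃ F : Fin s.card → MvPolynomial σ ℂ, ∀ i, F i = (s.equivFin.symm i : s) :=
    ⟨_, fun _ => rfl⟩
  simp only [← hFdef] at hFR hFw
  have hrange : Set.range F = s := by
    ext x
    constructor
    · rintro ⟨i, rfl⟩
      rw [hFdef]
      exact (s.equivFin.symm i).2
    · intro hx
      exact ⟨s.equivFin ⟨x, hx⟩, by rw [hFdef, Equiv.symm_apply_apply]⟩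
  refine ⟨s.card, F, w, fun i => ⟨hFR i, hFw i, hw i⟩, ?_⟩
  intro f hf d
  induction d using Nat.strong_induction_on generalizing f with
  | _ d ih =>
    intro hd
    rcases Nat.eq_zero_or_pos d with rfl | hpos
    · have h0 : f = (coeff 0 f) • (1 : MvPolynomial σ ℂ) := by
        have h := homogeneousComponent_eq_self hd
        rw [homogeneousComponent_zero, C_eq_smul_one] at h
        exact h.symm
      rw [h0]
      refine Submodule.smul_mem _ _ (Submodule.subset_span ⟨0, by simp, by simp⟩)
    · have hfJ : f ∈ Submodule.span (MvPolynomial σ ℂ) (Set.range F) := by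
        rw [hrange, ← hs']
        exact Submodule.subset_span ⟨hf, d, hpos, hd⟩
      obtain ⟨c, hc⟩ := (Submodule.mem_span_range_iff_exists_fun _).mp hfJ
      have h4 : f = ∑ i, F i * ρ (c i) := by
        have h := h1 f hf
        rw [← hc, map_sum] at h
        rw [← hc, ← h]
        refine Finset.sum_congr rfl fun i _ => ?_
        rw [smul_eq_mul, mul_comm, h3 _ (hFR i)]
      have h5 : f = ∑ i, homogeneousComponent d (F i * ρ (c i)) := by
        rw [← map_sum, ← h4, homogeneousComponent_eq_self hd]
      rw [h5]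
      refine Submodule.sum_mem _ fun i _ => ?_
      rw [hc_mul (hFw i)]
      split_ifs with hle
      · have h6 := ih (d - w i) (by have := hw i; omega)
          (homogeneousComponent (d - w i) (ρ (c i))) (hR _ (h2 _) _)
          (homogeneousComponent_isHomogeneous _ _)
        refine Submodule.span_induction (p := fun x _ => F i * x ∈ Submodule.span ℂ
          {x | ∃ a : Fin s.card → ℕ, ∑ i, a i * w i = d ∧ x = ∏ i, F i ^ a i}) ?_ ?_ ?_ ?_ h6
        · rintro x ⟨a, ha, rfl⟩
          refine Submodule.subset_span ⟨a + Pi.single i 1, ?_, ?_⟩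
          · simp only [Pi.add_apply, add_mul, Finset.sum_add_distrib, ha, Pi.single_apply, ite_mul,
              one_mul, zero_mul, Finset.sum_ite_eq', Finset.mem_univ, if_true]
            omega
          · simp only [Pi.add_apply, pow_add, Finset.prod_mul_distrib, Pi.single_apply, pow_ite,
              pow_one, pow_zero, Finset.prod_ite_eq', Finset.mem_univ, if_true]
            rw [mul_comm]
        · rw [mul_zero]
          exact Submodule.zero_mem _
        · intro x y _ _ hx hy
          rw [mul_add]
          exact Submodule.add_mem _ hx hy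
        · intro t x _ hx
          rw [mul_smul_comm]
          exact Submodule.smul_mem _ _ hx
      · exact Submodule.zero_mem _

end Pool.Agent.BNS
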