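import Mathlib
import Pool.Agent.BNS.HilA

/-!
BNS-HilB: if powers of the homogeneous invariants of positive degree lie in the ideal generated by
finitely many homogeneous invariants `D c` of positive degree, then every invariant is integral
over the algebra generated by the `D c`.

PLAN. Take `F, w` from `hilbertA` and `k ≥ 1` with `F i ^ k ∈ Ideal.span (range D)` for all `i`
(maximum of the exponents; `hD` for `f = F i`).
Step 1. `F i ^ k = ∑ c, D c * s c` with `s c ∈ R`, `s c` homogeneous of degree
`k * w i - δ c` (and `s c = 0` if `k * w i < δ c`): write `F i ^ k = ∑ h c * D c`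
(`Ideal.mem_span_range_iff_exists_fun`), apply `ρ` (`F i ^ k ∈ R`), take the component of degree
`k * w i`.
Step 2. Let `A = Algebra.adjoin ℂ (range D)`, `M` = the `A`-submodule of `MvPolynomial σ ℂ` spanned
by the finitely many `∏ F i ^ a i`, `a i < k`.  By strong induction on `d`: every homogeneous
`f ∈ R` of degree `d` is in `M`.  By `hilbertA` it is enough to treat `f = ∏ F i ^ a i` with
`∑ a i * w i = d`.  If all `a i < k`: clear.  Otherwise `f = F i ^ k * rest`
`= ∑ D c * (s c * rest)`, and `s c * rest ∈ R` is homogeneous of degree `d - δ c < d`.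
Step 3. `R` (as a subalgebra over `A`; `A ≤ R` as `D c ∈ R`) is equal to `M` as a submodule: `⊇` is
clear, `⊆` by decomposing `f ∈ R` into its homogeneous components (`sum_homogeneousComponent`).  So
it is finitely generated, and `IsIntegral.of_mem_of_fg` applies.
-/

set_option autoImplicit false

namespace Pool.Agent.BNS

open MvPolynomial

variable {σ : Type*} [Finite σ]

attribute [local instance] MvPolynomial.gradedAlgebra in
omit [Finite σ] in
private theorem hcB_mul {p q : MvPolynomial σ ℂ} {i : ℕ} (hp : p.IsHomogeneous i) (d : ℕ) :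
    homogeneousComponent d (p * q) =
      if i ≤ d then p * homogeneousComponent (d - i) q else 0 := by
  have h1 := DirectSum.coe_decompose_mul_of_left_mem (𝒜 := homogeneousSubmodule σ ℂ) (a := p)
    (b := q) (i := i) d hp
  have h2 : ∀ (f : MvPolynomial σ ℂ) (k : ℕ),
      (DirectSum.decompose (homogeneousSubmodule σ ℂ) f k : MvPolynomial σ ℂ) =
        homogeneousComponent k f := fun f k => decomposition.decompose'_apply f k
  rw [h2, h2] at h1
  exact h1

omit [Finite σ] in
private theorem powSpan (R : Subalgebra ℂ (MvPolynomial σ ℂ))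
    (hR : ∀ f ∈ R, ∀ d, homogeneousComponent d f ∈ R)
    (ρ : MvPolynomial σ ℂ →ₗ[ℂ] MvPolynomial σ ℂ) (h1 : ∀ f ∈ R, ρ f = f) (h2 : ∀ f, ρ f ∈ R)
    (h3 : ∀ f ∈ R, ∀ g, ρ (f * g) = f * ρ g)
    {ι : Type*} [Fintype ι] (D : ι → MvPolynomial σ ℂ) (δ : ι → ℕ) (hDR : ∀ c, D c ∈ R)
    (hδ : ∀ c, (D c).IsHomogeneous (δ c)) (g : MvPolynomial σ ℂ) (hg : g ∈ R) (e : ℕ)
    (hge : g.IsHomogeneous e) (hgD : g ∈ Ideal.span (Set.range D)) :
    ∃ s : ι → MvPolynomial σ ℂ, (∀ c, s c ∈ R) ∧ g = ∑ c, D c * s c ∧
      ∀ c, (δ c ≤ e ∧ (s c).IsHomogeneous (e - δ c)) ∨ s c = 0 := by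
  classical
  obtain ⟨h, hh⟩ := Ideal.mem_span_range_iff_exists_fun.mp hgD
  have h4 : g = ∑ c, D c * ρ (h c) := by
    have h5 := h1 g hg
    rw [← hh, map_sum] at h5
    rw [← hh, ← h5]
    refine Finset.sum_congr rfl fun c _ => ?_
    rw [mul_comm, h3 _ (hDR c)]
  refine ⟨fun c => if δ c ≤ e then homogeneousComponent (e - δ c) (ρ (h c)) else 0, ?_, ?_, ?_⟩
  · intro c
    dsimp only
    split_ifs
    · exact hR _ (h2 _) _
    · exact R.zero_mem
  · have h5 : g = ∑ c, homogeneousComponent e (D c * ρ (h c)) := by
      rw [← map_sum, ← h4, homogeneousComponent_eq_self hge]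
    rw [h5]
    refine Finset.sum_congr rfl fun c _ => ?_
    rw [hcB_mul (hδ c)]
    by_cases hle : δ c ≤ e
    · simp only [if_pos hle]
    · simp only [if_neg hle, mul_zero]
  · intro c
    dsimp only
    split_ifs with hle
    · exact Or.inl ⟨hle, homogeneousComponent_isHomogeneous _ _⟩
    · exact Or.inr rfl

theorem hilbertB (R : Subalgebra ℂ (MvPolynomial σ ℂ))
    (hR : ∀ f ∈ R, ∀ d, homogeneousComponent d f ∈ R)
    (ρ : MvPolynomial σ ℂ →ₗ[ℂ] MvPolynomial σ ℂ) (h1 : ∀ f ∈ R, ρ f = f) (h2 : ∀ f, ρ f ∈ R)
    (h3 : ∀ f ∈ R, ∀ g, ρ (f * g) = f * ρ g)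
    {ι : Type*} [Finite ι] (D : ι → MvPolynomial σ ℂ) (δ : ι → ℕ) (hDR : ∀ c, D c ∈ R)
    (hδ : ∀ c, (D c).IsHomogeneous (δ c)) (hδ0 : ∀ c, 0 < δ c)
    (hD : ∀ f ∈ R, ∀ d, 0 < d → f.IsHomogeneous d → ∃ k, f ^ k ∈ Ideal.span (Set.range D))
    (f : MvPolynomial σ ℂ) (hf : f ∈ R) :
    IsIntegral (Algebra.adjoin ℂ (Set.range D)) f := by
  classical
  cases nonempty_fintype ι
  obtain ⟨r, F, w, hF, hspan⟩ := hilbertA R hR ρ h1 h2 h3
  choose kk hkk using fun i => hD (F i) (hF i).1 (w i) (hF i).2.2 (hF i).2.1
  obtain ⟨k, hk⟩ : ∃ k, ∀ i, F i ^ k ∈ Ideal.span (Set.range D) :=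
    ⟨∑ i, kk i, fun i => Ideal.pow_mem_of_pow_mem _ (hkk i)
      (Finset.single_le_sum (fun j _ => Nat.zero_le (kk j)) (Finset.mem_univ i))⟩
  choose s hsR hsum hshom using fun i => powSpan R hR ρ h1 h2 h3 D δ hDR hδ (F i ^ k)
    (R.pow_mem (hF i).1 k) (w i * k) ((hF i).2.1.pow k) (hk i)
  set A := Algebra.adjoin ℂ (Set.range D) with hA
  have hDA : ∀ c, D c ∈ A := fun c => Algebra.subset_adjoin ⟨c, rfl⟩
  have hAR : A ≤ R := Algebra.adjoin_le (by rintro _ ⟨c, rfl⟩; exact hDR c)
  set G : Set (MvPolynomial σ ℂ) := {x | ∃ a : Fin r → ℕ, (∀ i, a i < k) ∧ x = ∏ i, F i ^ a i}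
    with hG
  have hGfin : G.Finite := by
    have h4 : (Set.pi Set.univ (fun _ : Fin r => Set.Iio k)).Finite :=
      Set.Finite.pi fun _ => Set.finite_Iio k
    refine (h4.image (fun a : Fin r → ℕ => ∏ i, F i ^ a i)).subset ?_
    rintro x ⟨a, ha, rfl⟩
    exact ⟨a, fun i _ => ha i, rfl⟩
  have key : ∀ d, ∀ f ∈ R, f.IsHomogeneous d → f ∈ Submodule.span A G := by
    intro d
    induction d using Nat.strong_induction_on with
    | _ d ih =>
      intro f hf hfd
      have h4 := hspan f hf d hfd
      refine Submodule.span_induction (p := fun x _ => x ∈ Submodule.span A G) ?_ ?_ ?_ ?_ h4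
      · rintro x ⟨a, ha, rfl⟩
        by_cases hall : ∀ i, a i < k
        · exact Submodule.subset_span ⟨a, hall, rfl⟩
        · rw [not_forall] at hall
          obtain ⟨i, hi⟩ := hall
          rw [not_lt] at hi
          have h5 : ∏ j, F j ^ a j = F i ^ k * ∏ j, F j ^ (a j - if j = i then k else 0) := by
            rw [← Finset.mul_prod_erase Finset.univ _ (Finset.mem_univ i),
              ← Finset.mul_prod_erase Finset.univ (fun j => F j ^ (a j - if j = i then k else 0))
                (Finset.mem_univ i), ← mul_assoc, if_pos rfl, ← pow_add]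
            congr 1
            · congr 1
              omega
            · refine Finset.prod_congr rfl fun j hj => ?_
              rw [if_neg (Finset.ne_of_mem_erase hj), Nat.sub_zero]
          have h6 : (∑ j, (a j - if j = i then k else 0) * w j) + w i * k = d := by
            rw [← ha]
            have h7 : ∀ j, a j * w j = (a j - if j = i then k else 0) * w j +
                (if j = i then w i * k else 0) := by
              intro j
              split_ifs with hj
              · subst hj
                obtain ⟨b, hb⟩ := Nat.exists_eq_add_of_le hi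
                rw [hb, Nat.add_sub_cancel_left]
                ring
              · simp
            rw [Finset.sum_congr rfl fun j _ => h7 j, Finset.sum_add_distrib]
            simp
          rw [h5, hsum i, Finset.sum_mul]
          refine Submodule.sum_mem _ fun c _ => ?_
          rw [mul_assoc]
          rcases hshom i c with ⟨hle, hhom⟩ | h0
          · have h8 : s i c * ∏ j, F j ^ (a j - if j = i then k else 0) ∈ Submodule.span A G := by
              refine ih (d - δ c) (by have := hδ0 c; omega) _
                (R.mul_mem (hsR i c) (R.prod_mem fun j _ => R.pow_mem (hF j).1 _)) ?_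
              have h9 : (∏ j, F j ^ (a j - if j = i then k else 0)).IsHomogeneous
                  (∑ j, w j * (a j - if j = i then k else 0)) :=
                IsHomogeneous.prod _ _ _ fun j _ => (hF j).2.1.pow _
              have h10 := hhom.mul h9
              have h11 : w i * k - δ c + ∑ j, w j * (a j - if j = i then k else 0) = d - δ c := by
                have h12 : ∑ j, w j * (a j - if j = i then k else 0) =
                    ∑ j, (a j - if j = i then k else 0) * w j :=
                  Finset.sum_congr rfl fun j _ => mul_comm _ _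
                rw [h12]
                omega
              rwa [h11] at h10
            exact Submodule.smul_mem (Submodule.span A G) (⟨D c, hDA c⟩ : A) h8
          · rw [h0, zero_mul, mul_zero]
            exact Submodule.zero_mem _
      · exact Submodule.zero_mem _
      · intro x y _ _ hx hy
        exact Submodule.add_mem _ hx hy
      · intro t x _ hx
        rw [← algebraMap_smul A t x]
        exact Submodule.smul_mem _ _ hx
  let S : Subalgebra A (MvPolynomial σ ℂ) :=
    { carrier := R
      mul_mem' := fun {a b} ha hb => R.mul_mem ha hb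
      add_mem' := fun {a b} ha hb => R.add_mem ha hb
      algebraMap_mem' := fun a => hAR a.2 }
  have hS : Subalgebra.toSubmodule S = Submodule.span A G := by
    apply le_antisymm
    · intro x hx
      have hx' : x ∈ R := hx
      rw [← sum_homogeneousComponent x]
      exact Submodule.sum_mem _ fun d _ =>
        key d _ (hR x hx' d) (homogeneousComponent_isHomogeneous _ _)
    · rw [Submodule.span_le]
      rintro x ⟨a, _, rfl⟩
      exact R.prod_mem fun j _ => R.pow_mem (hF j).1 _
  refine IsIntegral.of_mem_of_fg S ?_ f hf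
  rw [hS]
  exact Submodule.fg_span hGfin

end Pool.Agent.BNS
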