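import Mathlib
import Pool.Agent.BNS.Defs

/-!
BNS-Nlc: a tuple with a large block of zeros is in the null cone.

PLAN. For `t ≠ 0` let `g = diagonal (t ^ p i)`, `h = diagonal (t ^ q j)` (zpow) with
`p i = -(n - a)` for `i < a`, `p i = a` for `i ≥ a`, `q j = -(n - b)` for `j < b`, `q j = b` for
`j ≥ b`.  `∑ p i = 0`, `∑ q j = 0`, so both have determinant one (`Matrix.det_diagonal`,
`Finset.prod_zpow`-like; count the `i < a`: `Fin.card_filter_val_lt` or
`Fin.sum_univ_eq_sum_range` and splitting of the range).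
`(g * A e * h) i j = t ^ (p i + q j) * A e i j`, and `p i + q j ≥ 1` outside of the zero block
(`i < a`, `j < b`); the three cases: `a + b - n`, `a + b - n`, `a + b`.
Let `ε i j = (p i + q j).toNat`, and `φ = eval₂`/`aeval` of `f` at `v ↦ C (A e i j) * X ^ (ε i j)`
in `Polynomial ℂ`; `φ.eval t = val f (g A h) = val f A` for all `t ≠ 0`, so `φ` is constant
(`Polynomial.eq_of_infinite_eval_eq`), and `φ.eval 0 = val f 0` because every entry vanishes at
`t = 0` (in the block as `A e i j = 0`, outside as `ε ≥ 1`).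
-/

set_option autoImplicit false

namespace Pool.Agent.BNS

open MvPolynomial Matrix

private theorem nlc_card {n a : ℕ} (ha : a ≤ n) :
    (Finset.univ.filter (fun i : Fin n => (i : ℕ) < a)).card = a := by
  rw [Fin.card_filter_val_lt, min_eq_right ha]

private theorem nlc_prod {n a : ℕ} (ha : a ≤ n) {t : ℂ} (ht : t ≠ 0) :
    ∏ i : Fin n, (if (i : ℕ) < a then (t ^ (n - a))⁻¹ else t ^ a) = 1 := by
  rw [Finset.prod_ite, Finset.prod_const, Finset.prod_const, nlc_card ha]
  have h1 : (Finset.univ.filter (fun i : Fin n => ¬ (i : ℕ) < a)).card = n - a := by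
    have h2 := Finset.card_filter_add_card_filter_not (s := (Finset.univ : Finset (Fin n)))
      (fun i : Fin n => (i : ℕ) < a)
    rw [nlc_card ha, Finset.card_univ, Fintype.card_fin] at h2
    omega
  rw [h1, inv_pow, ← pow_mul, ← pow_mul, mul_comm a (n - a)]
  exact inv_mul_cancel₀ (pow_ne_zero _ ht)

private def nlc_eps (n a b i j : ℕ) : ℕ :=
  if i < a then (if j < b then 1 else a + b - n) else (if j < b then a + b - n else a + b)

private theorem nlc_pow {t : ℂ} (ht : t ≠ 0) {x y : ℕ} (h : x ≤ y) : (t ^ x)⁻¹ * t ^ y = t ^ (y - x) := by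
  rw [pow_sub₀ _ ht h, mul_comm]

private theorem nlc_poly {σ : Type} (f : MvPolynomial σ ℂ) (c : σ → ℂ) (ε : σ → ℕ) (t : ℂ) :
    (MvPolynomial.eval₂ Polynomial.C (fun v => Polynomial.C (c v) * Polynomial.X ^ ε v) f).eval t =
      MvPolynomial.eval (fun v => c v * t ^ ε v) f := by
  have h := MvPolynomial.eval₂_comp_left (Polynomial.evalRingHom t) Polynomial.C
    (fun v => Polynomial.C (c v) * Polynomial.X ^ ε v) f
  rw [Polynomial.coe_evalRingHom] at h
  rw [h]
  have h1 : (Polynomial.evalRingHom t).comp Polynomial.C = RingHom.id ℂ := by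
    ext x
    simp
  have h2 : (Polynomial.eval t) ∘ (fun v => Polynomial.C (c v) * Polynomial.X ^ ε v) =
      fun v => c v * t ^ ε v := by
    funext v
    simp
  rw [h1, h2]
  rfl

theorem val_of_block {m n : ℕ} (f : PT m n) (hf : IsSemi f)
    (A : Fin m → Matrix (Fin n) (Fin n) ℂ) (a b : ℕ) (ha : a ≤ n) (hb : b ≤ n) (hab : n < a + b)
    (hA : ∀ (e : Fin m) (i j : Fin n), (i : ℕ) < a → (j : ℕ) < b → A e i j = 0) : val f A = val f 0 := by
  have key : ∀ t : ℂ, t ≠ 0 →
      MvPolynomial.eval (fun v : Fin m × Fin n × Fin n =>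
        A v.1 v.2.1 v.2.2 * t ^ nlc_eps n a b v.2.1 v.2.2) f = val f A := by
    intro t ht
    obtain ⟨g, hg⟩ : ∃ g : Fin n → ℂ, ∀ i, g i = if (i : ℕ) < a then (t ^ (n - a))⁻¹ else t ^ a :=
      ⟨_, fun _ => rfl⟩
    obtain ⟨h, hh⟩ : ∃ h : Fin n → ℂ, ∀ j, h j = if (j : ℕ) < b then (t ^ (n - b))⁻¹ else t ^ b :=
      ⟨_, fun _ => rfl⟩
    have hg1 : (Matrix.diagonal g).det = 1 := by
      rw [Matrix.det_diagonal, Finset.prod_congr rfl fun i _ => hg i, nlc_prod ha ht]
    have hh1 : (Matrix.diagonal h).det = 1 := by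
      rw [Matrix.det_diagonal, Finset.prod_congr rfl fun i _ => hh i, nlc_prod hb ht]
    rw [← hf _ _ hg1 hh1 A, val]
    congr 2
    funext v
    obtain ⟨e, i, j⟩ := v
    show A e i j * t ^ nlc_eps n a b i j = (Matrix.diagonal g * A e * Matrix.diagonal h) i j
    rw [Matrix.mul_diagonal, Matrix.diagonal_mul, hg, hh]
    unfold nlc_eps
    by_cases h1 : (i : ℕ) < a
    · by_cases h2 : (j : ℕ) < b
      · rw [hA e i j h1 h2]
        ring
      · rw [if_pos h1, if_neg h2, if_pos h1, if_neg h2,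
          show a + b - n = b - (n - a) by omega, ← nlc_pow ht (by omega : n - a ≤ b)]
        ring
    · by_cases h2 : (j : ℕ) < b
      · rw [if_neg h1, if_pos h2, if_neg h1, if_pos h2,
          show a + b - n = a - (n - b) by omega, ← nlc_pow ht (by omega : n - b ≤ a)]
        ring
      · rw [if_neg h1, if_neg h2, if_neg h1, if_neg h2, pow_add]
        ring
  obtain ⟨φ, hφ⟩ : ∃ φ : Polynomial ℂ, φ = MvPolynomial.eval₂ Polynomial.C
      (fun v : Fin m × Fin n × Fin n => Polynomial.C (A v.1 v.2.1 v.2.2) *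
        Polynomial.X ^ nlc_eps n a b v.2.1 v.2.2) f := ⟨_, rfl⟩
  have hev : ∀ t : ℂ, φ.eval t = MvPolynomial.eval (fun v : Fin m × Fin n × Fin n =>
        A v.1 v.2.1 v.2.2 * t ^ nlc_eps n a b v.2.1 v.2.2) f := by
    intro t
    rw [hφ]
    exact nlc_poly f (fun v : Fin m × Fin n × Fin n => A v.1 v.2.1 v.2.2)
      (fun v => nlc_eps n a b v.2.1 v.2.2) t
  have hconst : φ = Polynomial.C (val f A) := by
    apply Polynomial.eq_of_infinite_eval_eq
    refine Set.Infinite.mono ?_ (Set.finite_singleton (0 : ℂ)).infinite_compl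
    intro t ht
    have ht0 : t ≠ 0 := ht
    show φ.eval t = (Polynomial.C (val f A)).eval t
    rw [hev, key t ht0, Polynomial.eval_C]
  have h0 := hev 0
  rw [hconst, Polynomial.eval_C] at h0
  rw [h0, val]
  congr 2
  funext v
  obtain ⟨e, i, j⟩ := v
  show A e i j * (0 : ℂ) ^ nlc_eps n a b i j = 0
  rw [zero_pow, mul_zero]
  unfold nlc_eps
  split_ifs <;> omega

end Pool.Agent.BNS
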