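import Mathlib
import Pool.Agent.BNS.Nlc

/-!
BNS-Lin: a tuple which is not nc-full is in the null cone.

PLAN. `¬ NcRk L n` gives subspaces `A`, `B` with `L(A, B) = 0`, `a = dim A`, `b = dim B`,
`n < a + b` (so `n > 0`).  Extend a basis of `A` to a basis of `ℂ ^ n`: there is an invertible
matrix `g` whose first `a` rows are in `A` (e.g. `Submodule.exists_isCompl`, bases of `A` and of a
complement, `Submodule.prodEquivOfIsCompl`, `Basis.prod`, reindex by `finSumFinEquiv` and
`Fin.castOrderIso`), and an invertible matrix `h` whose first `b` columns are in `B`.  Multiply the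
last row of `g` (column of `h`) by a scalar, or the whole matrices by scalars (`ℂ` is algebraically
closed: `IsAlgClosed.exists_pow_nat_eq`), to get determinant one.  Then
`(g * L e * h) i j = (row i of g) ⬝ᵥ (L e *ᵥ column j of h) = 0` for `i < a`, `j < b`, and
`val f L = val f (g L h) = val f 0` by `IsSemi` and `val_of_block`.
-/

set_option autoImplicit false

namespace Pool.Agent.BNS

open MvPolynomial Matrix Module

private theorem lin_basis {n : ℕ} (A : Submodule ℂ (Fin n → ℂ)) :
    ∃ b : Basis (Fin n) ℂ (Fin n → ℂ), ∀ i : Fin n, (i : ℕ) < finrank ℂ A → b i ∈ A := by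
  obtain ⟨C, hC⟩ := Submodule.exists_isCompl A
  have hsum : finrank ℂ A + finrank ℂ C = n := by
    rw [Submodule.finrank_add_eq_of_isCompl hC, Module.finrank_fin_fun]
  set bA := Module.finBasis ℂ A with hbA
  set bC := Module.finBasis ℂ C with hbC
  set b0 := (bA.prod bC).map (Submodule.prodEquivOfIsCompl A C hC) with hb0
  refine ⟨b0.reindex (finSumFinEquiv.trans (finCongr hsum)), fun i hi => ?_⟩
  have h1 : (finSumFinEquiv.trans (finCongr hsum)).symm i = Sum.inl ⟨i, hi⟩ := by
    rw [Equiv.symm_apply_eq]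
    ext
    simp
  rw [Basis.reindex_apply, h1, hb0, Basis.map_apply, Basis.prod_apply]
  simp

theorem exists_unimod {n : ℕ} (hn : 0 < n) (A : Submodule ℂ (Fin n → ℂ)) :
    ∃ g : Matrix (Fin n) (Fin n) ℂ, g.det = 1 ∧ ∀ i : Fin n, (i : ℕ) < finrank ℂ A → g i ∈ A := by
  obtain ⟨b, hb⟩ := lin_basis A
  set g0 : Matrix (Fin n) (Fin n) ℂ := Matrix.of fun i j => b i j with hg0
  have hdet : g0.det ≠ 0 := by
    have h1 : LinearIndependent ℂ g0.row := by
      have h2 : g0.row = b := by
        funext i j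
        rfl
      rw [h2]
      exact b.linearIndependent
    have h3 := Matrix.linearIndependent_rows_iff_isUnit.1 h1
    exact ((Matrix.isUnit_iff_isUnit_det g0).1 h3).ne_zero
  obtain ⟨t, ht⟩ := IsAlgClosed.exists_pow_nat_eq (g0.det)⁻¹ hn
  refine ⟨t • g0, ?_, fun i hi => ?_⟩
  · rw [Matrix.det_smul, Fintype.card_fin, ht, inv_mul_cancel₀ hdet]
  · have h1 : (t • g0) i = t • b i := by
      funext j
      rfl
    rw [h1]
    exact A.smul_mem t (hb i hi)

theorem val_of_not_full {m n : ℕ} (f : PT m n) (hf : IsSemi f)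
    (L : Fin m → Matrix (Fin n) (Fin n) ℂ) (hL : ¬ BNR.NcRk L n) : val f L = val f 0 := by
  unfold BNR.NcRk at hL
  push Not at hL
  obtain ⟨A, B, hAB, hlt⟩ := hL
  have ha : finrank ℂ A ≤ n := by
    have := Submodule.finrank_le A
    rwa [Module.finrank_fin_fun] at this
  have hb : finrank ℂ B ≤ n := by
    have := Submodule.finrank_le B
    rwa [Module.finrank_fin_fun] at this
  have hn : 0 < n := by omega
  obtain ⟨g, hg, hgA⟩ := exists_unimod hn A
  obtain ⟨h, hh, hhB⟩ := exists_unimod hn B
  rw [← hf g hᵀ hg (by rw [Matrix.det_transpose, hh]) L]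
  refine val_of_block f hf _ (finrank ℂ A) (finrank ℂ B) ha hb (by omega) fun e i j hi hj => ?_
  have h1 := hAB e (g i) (hgA i hi) (h j) (hhB j hj)
  rw [← h1, Matrix.mul_assoc]
  simp only [Matrix.mul_apply, dotProduct, mulVec, Matrix.transpose_apply]

end Pool.Agent.BNS
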