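import Mathlib
import Pool.Agent.BNS.Defs

/-!
BNS-FisA: the Fischer product is a positive definite Hermitian form.

PLAN. `fis_eq`: for every finset `s` containing the support of `f` the sum may be taken over `s`
(`Finset.sum_subset`, outside the support `coeff a f = 0`).  Additivity and the other rules: take
`s = f.support ∪ f'.support` (∪ g.support) and compare termwise.  Hermitian symmetry: over the
union of the supports; the factorial product is a natural number, so its conjugate is itself.
`fis f f = ∑ (∏ α!) * normSq (coeff)`: nonnegative real part, zero iff all coefficients vanish.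
-/

set_option autoImplicit false

namespace Pool.Agent.BNS

open MvPolynomial

variable {σ : Type*}

theorem fis_eq (f g : MvPolynomial σ ℂ) (s : Finset (σ →₀ ℕ)) (hs : f.support ⊆ s) :
    fis f g = ∑ a ∈ s, ((a.prod fun _ k => k.factorial : ℕ) : ℂ) *
      (starRingEnd ℂ (coeff a f) * coeff a g) := by
  unfold fis
  refine Finset.sum_subset hs fun a _ ha => ?_
  rw [notMem_support_iff.1 ha, map_zero, zero_mul, mul_zero]

theorem fis_add_left (f g h : MvPolynomial σ ℂ) : fis (f + g) h = fis f h + fis g h := by
  classical
  rw [fis_eq (f + g) h (f.support ∪ g.support) support_add,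
    fis_eq f h (f.support ∪ g.support) Finset.subset_union_left,
    fis_eq g h (f.support ∪ g.support) Finset.subset_union_right, ← Finset.sum_add_distrib]
  refine Finset.sum_congr rfl fun a _ => ?_
  rw [coeff_add, map_add]
  ring

theorem fis_smul_left (c : ℂ) (f h : MvPolynomial σ ℂ) :
    fis (c • f) h = starRingEnd ℂ c * fis f h := by
  rw [fis_eq (c • f) h f.support support_smul, fis_eq f h f.support (Finset.Subset.refl _),
    Finset.mul_sum]
  refine Finset.sum_congr rfl fun a _ => ?_
  rw [coeff_smul, smul_eq_mul, map_mul]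
  ring

theorem fis_add_right (f g h : MvPolynomial σ ℂ) : fis f (g + h) = fis f g + fis f h := by
  unfold fis
  rw [← Finset.sum_add_distrib]
  refine Finset.sum_congr rfl fun a _ => ?_
  rw [coeff_add]
  ring

theorem fis_smul_right (c : ℂ) (f h : MvPolynomial σ ℂ) : fis f (c • h) = c * fis f h := by
  unfold fis
  rw [Finset.mul_sum]
  refine Finset.sum_congr rfl fun a _ => ?_
  rw [coeff_smul, smul_eq_mul]
  ring

theorem fis_conj (f g : MvPolynomial σ ℂ) : starRingEnd ℂ (fis f g) = fis g f := by
  classical
  rw [fis_eq f g (f.support ∪ g.support) Finset.subset_union_left,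
    fis_eq g f (f.support ∪ g.support) Finset.subset_union_right, map_sum]
  refine Finset.sum_congr rfl fun a _ => ?_
  rw [map_mul, map_mul, Complex.conj_conj, map_natCast]
  ring

private theorem fis_self_aux (f : MvPolynomial σ ℂ) :
    fis f f = ((∑ a ∈ f.support, ((a.prod fun _ k => k.factorial : ℕ) : ℝ) *
      Complex.normSq (coeff a f) : ℝ) : ℂ) := by
  unfold fis
  rw [Complex.ofReal_sum]
  refine Finset.sum_congr rfl fun a _ => ?_
  rw [Complex.ofReal_mul, Complex.ofReal_natCast, Complex.normSq_eq_conj_mul_self]

theorem fis_self_re (f : MvPolynomial σ ℂ) : 0 ≤ (fis f f).re := by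
  rw [fis_self_aux, Complex.ofReal_re]
  exact Finset.sum_nonneg fun a _ => mul_nonneg (Nat.cast_nonneg _) (Complex.normSq_nonneg _)

theorem fis_self_eq_zero (f : MvPolynomial σ ℂ) (h : fis f f = 0) : f = 0 := by
  rw [fis_self_aux, Complex.ofReal_eq_zero] at h
  rw [Finset.sum_eq_zero_iff_of_nonneg fun a _ =>
    mul_nonneg (Nat.cast_nonneg _) (Complex.normSq_nonneg _)] at h
  ext a
  rw [coeff_zero]
  by_cases ha : a ∈ f.support
  · have h1 := h a ha
    have h2 : ((a.prod fun _ k => k.factorial : ℕ) : ℝ) ≠ 0 := by
      rw [Nat.cast_ne_zero]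
      exact Finset.prod_ne_zero_iff.2 fun i _ => Nat.factorial_ne_zero _
    exact Complex.normSq_eq_zero.1 ((mul_eq_zero.1 h1).resolve_left h2)
  · exact notMem_support_iff.1 ha

end Pool.Agent.BNS
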