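import Mathlib
import Pool.Agent.BNS.FisA

/-!
BNS-FisB: multiplication by a variable is adjoint to the partial derivative; the substitution of a
matrix is adjoint to the substitution of the conjugate transpose.

PLAN. `fis_X_mul`: by additivity and `fis_smul_left/right` it is enough to check monomials
`f = monomial a 1`, `g = monomial b 1` (`MvPolynomial.induction_on'` or
`MvPolynomial.as_sum`; a Finsupp/AddMonoidHom extensionality argument also works).
`fis (monomial a 1) (monomial b 1) = if a = b then ∏ (a i)! else 0`;
`X i * monomial a 1 = monomial (a + single i 1) 1`;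
`pderiv i (monomial b 1) = monomial (b - single i 1) (b i)` (`MvPolynomial.pderiv_monomial`).
If `b = a + single i 1` both sides are `∏ (b j)!` as `(b i)! = (b i) * (a i)!`.
If `b ≠ a + single i 1`, both sides are `0` (either `b i = 0`, the coefficient is `0`, or
`b - single i 1 ≠ a`).
A direct computation with coefficients is also possible: `coeff_X_mul'` and the coefficient of
`pderiv`.

`sub_pderiv` (chain rule): induction on `f` (`MvPolynomial.induction_on`): constants: both sides 0;
sums; for `f * X k`: Leibniz rule, `pderiv i (∑ j, C (M k j) * X j) = C (M k i)`,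
`pderiv j (X k) = Pi.single ..` (`pderiv_X`).

`fis_sub`: induction on `f` (`MvPolynomial.induction_on`), for all `g`:
constants: `fis (C a) g = conj a * coeff 0 g` and `coeff 0 (sub M g) = coeff 0 g` (the constant
coefficient is the value at `0`; `constantCoeff` composed with `sub M`, `MvPolynomial.algHom_ext`
or `ringHom_ext`);
`f * X i`: `sub M (X i * f) = ∑ j, M i j • (X j * sub M f)`, so
`fis (sub M (X i * f)) g = ∑ j, conj (M i j) * fis (sub M f) (pderiv j g)
  = ∑ j, conj (M i j) * fis f (sub Mᴴ (pderiv j g))`, and
`fis (X i * f) (sub Mᴴ g) = fis f (pderiv i (sub Mᴴ g))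
  = fis f (∑ j, C (Mᴴ j i) * sub Mᴴ (pderiv j g))`.
-/

set_option autoImplicit false

namespace Pool.Agent.BNS

open MvPolynomial Matrix

variable {σ : Type*}

private theorem fisB_fac (b : σ →₀ ℕ) (i : σ) :
    ((Finsupp.single i 1 + b).prod fun _ k => k.factorial) =
      (b i + 1) * b.prod fun _ k => k.factorial := by
  classical
  have h1 : ∀ (c : σ →₀ ℕ) (s : Finset σ), c.support ⊆ s →
      (c.prod fun _ k => k.factorial) = ∏ j ∈ s, (c j).factorial := by
    intro c s hs
    exact Finsupp.prod_of_support_subset c hs _ (fun _ _ => by simp)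
  have hs1 : (Finsupp.single i 1 + b).support ⊆ insert i b.support := by
    refine Finsupp.support_add.trans ?_
    intro j hj
    rw [Finset.mem_union] at hj
    rcases hj with hj | hj
    · have := Finsupp.support_single_subset hj
      rw [Finset.mem_singleton] at this
      rw [this]
      exact Finset.mem_insert_self _ _
    · exact Finset.mem_insert_of_mem hj
  rw [h1 _ _ hs1, h1 b (insert i b.support) (Finset.subset_insert _ _),
    ← Finset.mul_prod_erase _ _ (Finset.mem_insert_self i b.support),
    ← Finset.mul_prod_erase _ (fun j => (b j).factorial) (Finset.mem_insert_self i b.support)]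
  have h2 : ∏ j ∈ (insert i b.support).erase i,
      ((Finsupp.single i 1 + b : σ →₀ ℕ) j).factorial =
      ∏ j ∈ (insert i b.support).erase i, (b j).factorial := by
    refine Finset.prod_congr rfl fun j hj => ?_
    have hji : j ≠ i := (Finset.mem_erase.1 hj).1
    rw [Finsupp.add_apply, Finsupp.single_eq_of_ne hji, zero_add]
  rw [h2, Finsupp.add_apply, Finsupp.single_eq_same, add_comm 1 (b i), Nat.factorial_succ,
    mul_assoc]

theorem fis_X_mul (i : σ) (f g : MvPolynomial σ ℂ) :
    fis (X i * f) g = fis f (pderiv i g) := by
  unfold fis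
  rw [support_X_mul, Finset.sum_map]
  refine Finset.sum_congr rfl fun b _ => ?_
  rw [addLeftEmbedding_apply, coeff_X_mul, fisB_fac, coeff_pderiv, add_comm b]
  push_cast
  ring

variable [Fintype σ]

/-- chain rule -/
theorem sub_pderiv (M : Matrix σ σ ℂ) (i : σ) (f : MvPolynomial σ ℂ) :
    pderiv i (sub M f) = ∑ j, C (M j i) * sub M (pderiv j f) := by
  classical
  induction f using MvPolynomial.induction_on with
  | C a =>
    have : sub M (C a) = C a := (sub M).commutes a
    rw [this, pderiv_C]
    simp
  | add p q hp hq =>
    rw [map_add, map_add, hp, hq, ← Finset.sum_add_distrib]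
    refine Finset.sum_congr rfl fun j _ => ?_
    rw [map_add, map_add, mul_add]
  | mul_X p k hp =>
    have hX : sub M (X k) = ∑ j, C (M k j) * X j := by
      simp [sub]
    have hd : pderiv i (sub M (X k)) = C (M k i) := by
      rw [hX, map_sum, Finset.sum_eq_single i]
      · rw [pderiv_C_mul, pderiv_X_self, mul_one]
      · intro j _ hj
        rw [pderiv_C_mul, pderiv_X_of_ne hj, mul_zero]
      · intro h
        exact absurd (Finset.mem_univ i) h
    rw [map_mul, pderiv_mul, hp, hd]
    have : ∀ j, C (M j i) * sub M (pderiv j (p * X k)) =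
        C (M j i) * sub M (pderiv j p) * sub M (X k) +
        (if j = k then sub M p * C (M k i) else 0) := by
      intro j
      rw [pderiv_mul, map_add, map_mul, map_mul, mul_add, mul_assoc]
      congr 1
      by_cases hjk : j = k
      · subst hjk
        rw [pderiv_X_self, map_one, if_pos rfl]
        ring
      · rw [pderiv_X_of_ne (Ne.symm hjk), map_zero, if_neg hjk]
        ring
    rw [Finset.sum_congr rfl fun j _ => this j, Finset.sum_add_distrib, Finset.sum_ite_eq',
      if_pos (Finset.mem_univ k), ← Finset.sum_mul]

omit [Fintype σ] in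
private theorem fisB_sum_left {ι : Type*} (s : Finset ι) (F : ι → MvPolynomial σ ℂ)
    (g : MvPolynomial σ ℂ) : fis (∑ j ∈ s, F j) g = ∑ j ∈ s, fis (F j) g := by
  classical
  induction s using Finset.induction_on with
  | empty => simp [fis]
  | insert a s ha ih => rw [Finset.sum_insert ha, Finset.sum_insert ha, fis_add_left, ih]

omit [Fintype σ] in
private theorem fisB_sum_right {ι : Type*} (s : Finset ι) (F : ι → MvPolynomial σ ℂ)
    (g : MvPolynomial σ ℂ) : fis g (∑ j ∈ s, F j) = ∑ j ∈ s, fis g (F j) := by
  classical
  induction s using Finset.induction_on with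
  | empty => simp [fis]
  | insert a s ha ih => rw [Finset.sum_insert ha, Finset.sum_insert ha, fis_add_right, ih]

omit [Fintype σ] in
private theorem fisB_C (a : ℂ) (g : MvPolynomial σ ℂ) :
    fis (C a) g = starRingEnd ℂ a * coeff 0 g := by
  classical
  rw [fis_eq (C a) g {0} (by
    intro b hb
    rw [Finset.mem_singleton]
    rw [mem_support_iff, coeff_C] at hb
    by_contra hne
    rw [if_neg (Ne.symm hne)] at hb
    exact hb rfl), Finset.sum_singleton, coeff_C, if_pos rfl]
  simp

private theorem fisB_coeff_zero (M : Matrix σ σ ℂ) (g : MvPolynomial σ ℂ) :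
    coeff 0 (sub M g) = coeff 0 g := by
  have h1 : (constantCoeff : MvPolynomial σ ℂ →+* ℂ).comp (sub M).toRingHom = constantCoeff := by
    apply MvPolynomial.ringHom_ext
    · intro r
      have : sub M (C r) = C r := (sub M).commutes r
      simp [this]
    · intro k
      simp [sub]
  have h2 := RingHom.congr_fun h1 g
  simpa [constantCoeff_eq] using h2

theorem fis_sub (M : Matrix σ σ ℂ) (f g : MvPolynomial σ ℂ) :
    fis (sub M f) g = fis f (sub Mᴴ g) := by
  induction f using MvPolynomial.induction_on generalizing g with
  | C a =>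
    have : sub M (C a) = C a := (sub M).commutes a
    rw [this, fisB_C, fisB_C, fisB_coeff_zero]
  | add p q hp hq =>
    rw [map_add, fis_add_left, fis_add_left, hp, hq]
  | mul_X p k hp =>
    have hX : sub M (X k) = ∑ j, C (M k j) * X j := by
      simp [sub]
    rw [map_mul, hX, Finset.mul_sum, fisB_sum_left, mul_comm p (X k), fis_X_mul, sub_pderiv,
      fisB_sum_right]
    refine Finset.sum_congr rfl fun j _ => ?_
    have h1 : sub M p * (C (M k j) * X j) = (M k j) • (X j * sub M p) := by
      rw [smul_eq_C_mul]
      ring
    rw [h1, fis_smul_left, fis_X_mul, hp, ← smul_eq_C_mul, fis_smul_right]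
    rfl

end Pool.Agent.BNS
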