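import Mathlib
import Pool.Agent.BNS.FisA

/-! BNS-Prj: orthogonal projection onto a finite dimensional subspace for the Fischer product. -/

set_option autoImplicit false

namespace Pool.Agent.BNS

open MvPolynomial

variable {σ : Type*}

private theorem prj_zero_left (h : MvPolynomial σ ℂ) : fis 0 h = 0 := by
  have h1 := fis_smul_left 0 0 h
  rw [zero_smul, map_zero, zero_mul] at h1
  exact h1

private def prjN (W : Submodule ℂ (MvPolynomial σ ℂ)) (h : MvPolynomial σ ℂ) : Submodule ℂ W where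
  carrier := {x | fis (x : MvPolynomial σ ℂ) h = 0}
  add_mem' := fun {x y} hx hy => by
    show fis ((x + y : W) : MvPolynomial σ ℂ) h = 0
    have hx' : fis (x : MvPolynomial σ ℂ) h = 0 := hx
    have hy' : fis (y : MvPolynomial σ ℂ) h = 0 := hy
    rw [Submodule.coe_add, fis_add_left, hx', hy', add_zero]
  zero_mem' := prj_zero_left h
  smul_mem' := fun c x hx => by
    show fis ((c • x : W) : MvPolynomial σ ℂ) h = 0
    have hx' : fis (x : MvPolynomial σ ℂ) h = 0 := hx
    rw [Submodule.coe_smul, fis_smul_left, hx', mul_zero]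

private theorem prj_of_basis (W : Submodule ℂ (MvPolynomial σ ℂ)) {n : ℕ}
    (b : Module.Basis (Fin n) ℂ W) (h : MvPolynomial σ ℂ) (hb : ∀ i, fis (b i : MvPolynomial σ ℂ) h = 0)
    (w' : MvPolynomial σ ℂ) (hw' : w' ∈ W) : fis w' h = 0 := by
  have h1 : Submodule.span ℂ (Set.range b) ≤ prjN W h := by
    rw [Submodule.span_le]
    rintro _ ⟨i, rfl⟩
    exact hb i
  rw [b.span_eq] at h1
  have h2 : (⟨w', hw'⟩ : W) ∈ prjN W h := h1 (Submodule.mem_top)
  exact h2

theorem exists_proj (W : Submodule ℂ (MvPolynomial σ ℂ)) [FiniteDimensional ℂ W]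
    (f : MvPolynomial σ ℂ) : ∃ w ∈ W, ∀ w' ∈ W, fis w' (f - w) = 0 := by
  obtain ⟨b⟩ : Nonempty (Module.Basis (Fin (Module.finrank ℂ W)) ℂ W) := ⟨Module.finBasis ℂ W⟩
  obtain ⟨G, hG⟩ : ∃ G : W →ₗ[ℂ] (Fin (Module.finrank ℂ W) → ℂ),
      ∀ (w : W) i, G w i = fis (b i : MvPolynomial σ ℂ) (w : MvPolynomial σ ℂ) :=
    ⟨{ toFun := fun w i => fis (b i : MvPolynomial σ ℂ) (w : MvPolynomial σ ℂ)
       map_add' := fun w w' => by
         funext i
         exact fis_add_right _ _ _
       map_smul' := fun c w => by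
         funext i
         exact fis_smul_right _ _ _ }, fun _ _ => rfl⟩
  have hinj : Function.Injective G := by
    rw [injective_iff_map_eq_zero]
    intro w hw
    have h1 : ∀ i, fis (b i : MvPolynomial σ ℂ) (w : MvPolynomial σ ℂ) = 0 := by
      intro i
      rw [← hG, hw]
      rfl
    exact Subtype.ext (fis_self_eq_zero _ (prj_of_basis W b _ h1 w w.2))
  have hsurj : Function.Surjective G := by
    rw [← LinearMap.injective_iff_surjective_of_finrank_eq_finrank (by simp)]
    exact hinj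
  obtain ⟨w, hw⟩ := hsurj fun i => fis (b i : MvPolynomial σ ℂ) f
  refine ⟨w, w.2, prj_of_basis W b _ fun i => ?_⟩
  have h2 : fis (b i : MvPolynomial σ ℂ) (w : MvPolynomial σ ℂ) = fis (b i : MvPolynomial σ ℂ) f := by
    rw [← hG, hw]
  have h3 := fis_add_right (b i : MvPolynomial σ ℂ) (f - w) w
  rw [sub_add_cancel, h2] at h3
  exact left_eq_add.1 (by rw [add_comm]; exact h3)

end Pool.Agent.BNS
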