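import Mathlib
import Pool.Agent.BNS.FisB
import Pool.Agent.BNS.Prj

/-!
BNS-Rey: the Reynolds operator.

Projection onto the invariants along the span of all `sub M g - g` (Fischer inner product).
-/

set_option autoImplicit false

namespace Pool.Agent.BNS

open MvPolynomial Matrix

variable {σ : Type*} [Fintype σ]

theorem sub_homog (M : Matrix σ σ ℂ) (f : MvPolynomial σ ℂ) (d : ℕ) (hf : f.IsHomogeneous d) :
    (sub M f).IsHomogeneous d := by
  have h : ∀ i, (∑ j, C (M i j) * X j : MvPolynomial σ ℂ).IsHomogeneous 1 := by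
    intro i
    refine MvPolynomial.IsHomogeneous.sum _ _ _ fun j _ => ?_
    have h1 := (isHomogeneous_C σ (M i j)).mul (isHomogeneous_X ℂ j)
    rw [zero_add] at h1
    exact h1
  have h2 := hf.aeval (fun i => ∑ j, C (M i j) * X j) h
  rw [one_mul] at h2
  exact h2

private noncomputable def rey_W (S : Set (Matrix σ σ ℂ)) : Submodule ℂ (MvPolynomial σ ℂ) :=
  Submodule.span ℂ {u | ∃ M ∈ S, ∃ g, u = sub M g - g}

private noncomputable def rey_Wd (S : Set (Matrix σ σ ℂ)) (d : ℕ) :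
    Submodule ℂ (MvPolynomial σ ℂ) :=
  Submodule.span ℂ {u | ∃ M ∈ S, ∃ g : MvPolynomial σ ℂ, g.IsHomogeneous d ∧ u = sub M g - g}

private theorem rey_le (S : Set (Matrix σ σ ℂ)) (d : ℕ) : rey_Wd S d ≤ rey_W S := by
  refine Submodule.span_mono ?_
  rintro _ ⟨M, hM, g, _, rfl⟩
  exact ⟨M, hM, g, rfl⟩

private theorem rey_orth (S : Set (Matrix σ σ ℂ)) (hS : ∀ M ∈ S, Mᴴ ∈ S)
    (w : MvPolynomial σ ℂ) (hw : w ∈ rey_W S) (r : MvPolynomial σ ℂ) (hr : r ∈ Inv S) :
    fis w r = 0 := by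
  unfold rey_W at hw
  induction hw using Submodule.span_induction with
  | mem x hx =>
    obtain ⟨M, hM, g, rfl⟩ := hx
    have h1 := fis_add_left (sub M g - g) g r
    rw [sub_add_cancel, fis_sub, hr _ (hS M hM)] at h1
    have h2 : fis (sub M g - g) r + fis g r = 0 + fis g r := by rw [← h1, zero_add]
    exact add_right_cancel h2
  | zero =>
    have h1 := fis_smul_left 0 0 r
    rw [zero_smul, map_zero, zero_mul] at h1
    exact h1
  | add x y _ _ hx hy => rw [fis_add_left, hx, hy, add_zero]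
  | smul a x _ hx => rw [fis_smul_left, hx, mul_zero]

private theorem rey_hom (S : Set (Matrix σ σ ℂ)) (hS : ∀ M ∈ S, Mᴴ ∈ S) (d : ℕ)
    (f : MvPolynomial σ ℂ) (hf : f.IsHomogeneous d) : ∃ w ∈ rey_W S, f - w ∈ Inv S := by
  have hsub : ∀ p q : MvPolynomial σ ℂ, p.IsHomogeneous d → q.IsHomogeneous d →
      (p - q).IsHomogeneous d := fun p q hp hq =>
    (homogeneousSubmodule σ ℂ d).sub_mem hp hq
  have hle : rey_Wd S d ≤ homogeneousSubmodule σ ℂ d := by
    refine Submodule.span_le.2 ?_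
    rintro _ ⟨M, _, g, hg, rfl⟩
    exact hsub _ _ (sub_homog M g d hg) hg
  have : Module.Finite ℂ (homogeneousSubmodule σ ℂ d) :=
    Module.Finite.iff_fg.2 (homogeneousSubmodule_fg σ ℂ d)
  have : FiniteDimensional ℂ (rey_Wd S d) := Submodule.finiteDimensional_of_le hle
  obtain ⟨w, hw, hw'⟩ := exists_proj (rey_Wd S d) f
  refine ⟨w, rey_le S d hw, fun M hM => ?_⟩
  have hr : (f - w).IsHomogeneous d := hsub _ _ hf (hle hw)
  have hu : (sub M (f - w) - (f - w)).IsHomogeneous d := hsub _ _ (sub_homog M _ d hr) hr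
  have h1 : fis (sub Mᴴ (sub M (f - w) - (f - w)) - (sub M (f - w) - (f - w))) (f - w) = 0 :=
    hw' _ (Submodule.subset_span ⟨Mᴴ, hS M hM, _, hu, rfl⟩)
  have h2 := fis_add_left (sub Mᴴ (sub M (f - w) - (f - w)) - (sub M (f - w) - (f - w)))
    (sub M (f - w) - (f - w)) (f - w)
  rw [sub_add_cancel, h1, zero_add, fis_sub, conjTranspose_conjTranspose] at h2
  have h3 := fis_add_right (sub M (f - w) - (f - w)) (sub M (f - w) - (f - w)) (f - w)
  rw [sub_add_cancel, h2] at h3
  have h4 : fis (sub M (f - w) - (f - w)) (sub M (f - w) - (f - w)) = 0 := by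
    have h5 : 0 + fis (sub M (f - w) - (f - w)) (f - w) =
        fis (sub M (f - w) - (f - w)) (sub M (f - w) - (f - w)) +
          fis (sub M (f - w) - (f - w)) (f - w) := by
      rw [zero_add]
      exact h3
    exact (add_right_cancel h5).symm
  exact sub_eq_zero.1 (fis_self_eq_zero _ h4)

private theorem rey_compl (S : Set (Matrix σ σ ℂ)) (hS : ∀ M ∈ S, Mᴴ ∈ S) :
    IsCompl (Subalgebra.toSubmodule (Inv S)) (rey_W S) := by
  refine ⟨?_, ?_⟩
  · rw [Submodule.disjoint_def]
    intro x hx hw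
    exact fis_self_eq_zero _ (rey_orth S hS x hw x hx)
  · rw [codisjoint_iff, eq_top_iff]
    intro f _
    rw [← sum_homogeneousComponent f]
    refine Submodule.sum_mem _ fun i _ => ?_
    obtain ⟨w, hw, hr⟩ := rey_hom S hS i _ (homogeneousComponent_isHomogeneous i f)
    rw [Submodule.mem_sup]
    exact ⟨_, hr, w, hw, sub_add_cancel _ _⟩

private theorem rey_mul (S : Set (Matrix σ σ ℂ)) (f : MvPolynomial σ ℂ) (hf : f ∈ Inv S)
    (w : MvPolynomial σ ℂ) (hw : w ∈ rey_W S) : f * w ∈ rey_W S := by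
  unfold rey_W at hw
  induction hw using Submodule.span_induction with
  | mem x hx =>
    obtain ⟨M, hM, g, rfl⟩ := hx
    refine Submodule.subset_span ⟨M, hM, f * g, ?_⟩
    rw [map_mul, hf M hM, mul_sub]
  | zero =>
    rw [mul_zero]
    exact Submodule.zero_mem _
  | add x y _ _ hx hy =>
    rw [mul_add]
    exact Submodule.add_mem _ hx hy
  | smul a x _ hx =>
    rw [mul_smul_comm]
    exact Submodule.smul_mem _ a hx

/-- **Reynolds operator** -/
theorem reynolds (S : Set (Matrix σ σ ℂ)) (hS : ∀ M ∈ S, Mᴴ ∈ S) :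
    ∃ ρ : MvPolynomial σ ℂ →ₗ[ℂ] MvPolynomial σ ℂ, (∀ f ∈ Inv S, ρ f = f) ∧
      (∀ f, ρ f ∈ Inv S) ∧ ∀ f ∈ Inv S, ∀ g, ρ (f * g) = f * ρ g := by
  have hc := rey_compl S hS
  refine ⟨Submodule.projection _ _ hc, fun f hf => Submodule.projection_apply_of_mem_left hc hf,
    fun f => Submodule.projection_apply_mem hc f, fun f hf g => ?_⟩
  obtain ⟨r, hr, w, hw, hg⟩ : ∃ r ∈ Subalgebra.toSubmodule (Inv S), ∃ w ∈ rey_W S, r + w = g :=
    Submodule.mem_sup.1 (by
      rw [codisjoint_iff.1 hc.2]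
      exact Submodule.mem_top)
  rw [← hg, mul_add, map_add, map_add, Submodule.projection_apply_of_mem_left hc hr,
    Submodule.projection_apply_of_mem_right hc hw,
    Submodule.projection_apply_of_mem_right hc (rey_mul S f hf w hw),
    Submodule.projection_apply_of_mem_left hc (show f * r ∈ Subalgebra.toSubmodule (Inv S) from
      (Inv S).mul_mem hf hr), add_zero, add_zero]

end Pool.Agent.BNS
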