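import Mathlib
import Pool.Agent.BNS.Rey
import Pool.Agent.BNS.HilB
import Pool.Agent.BNS.Lin
import Pool.Agent.BNS.Dtp
import Pool.Agent.BNS.Grd

/-!
BNS-Fin: explicit Noether normalization for matrix semi-invariants, assembly.
-/

set_option autoImplicit false

namespace Pool.Agent.BNS

open MvPolynomial Matrix

variable {m n : ℕ}

theorem val_homog (f : PT m n) (d : ℕ) (hd : 0 < d) (hf : f.IsHomogeneous d) :
    val f (0 : Fin m → Matrix (Fin n) (Fin n) ℂ) = 0 := by
  unfold val
  have h0 : (fun v : Fin m × Fin n × Fin n =>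
      (0 : Fin m → Matrix (Fin n) (Fin n) ℂ) v.1 v.2.1 v.2.2) = 0 := by
    funext v
    rfl
  rw [h0, MvPolynomial.eval_zero]
  have h1 : coeff 0 f = 0 := hf.coeff_eq_zero (by simpa using hd.ne)
  rw [← MvPolynomial.constantCoeff_eq] at h1
  exact h1

/-- **Explicit null cone and Noether normalization for matrix semi-invariants.** -/
theorem noether {ι : Type*} [Finite ι] {κ : Type*} [Fintype κ] [DecidableEq κ] [Nonempty κ]
    (hn : 0 < n) (Y : ι → Fin m → Matrix κ κ ℂ)
    (hY : ∀ L : Fin m → Matrix (Fin n) (Fin n) ℂ, BNR.NcRk L n → ∃ c, (BNR.ev L (Y c)).det ≠ 0)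
    (f : PT m n) (hf : IsSemi f) :
    IsIntegral (Algebra.adjoin ℂ (Set.range fun c => dY (n := n) (Y c))) f := by
  obtain ⟨ρ, h1, h2, h3⟩ := reynolds (lrS m n) lr_star
  refine hilbertB (Inv (lrS m n)) (fun f hf d => inv_comp _ f hf d) ρ h1 h2 h3
    (fun c => dY (n := n) (Y c)) (fun _ => n * Fintype.card κ)
    (fun c => (semi_iff _).1 (dY_semi _)) (fun c => dY_hom _)
    (fun c => Nat.mul_pos hn Fintype.card_pos) ?_ f ((semi_iff f).1 hf)
  intro f hf d hd hfd
  have h4 : f ∈ (Ideal.span (Set.range fun c => dY (n := n) (Y c))).radical := by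
    rw [← vanishingIdeal_zeroLocus_eq_radical (K := ℂ), mem_vanishingIdeal_iff]
    intro x hx
    let L : Fin m → Matrix (Fin n) (Fin n) ℂ := fun e => Matrix.of fun i j => x (e, i, j)
    have hL : ∀ g : PT m n, aeval x g = val g L := by
      intro g
      exact RingHom.congr_fun (MvPolynomial.coe_aeval_eq_eval x) g
    rw [hL]
    by_cases hfull : BNR.NcRk L n
    · obtain ⟨c, hc⟩ := hY L hfull
      exfalso
      apply hc
      rw [← val_dY, ← hL]
      exact (mem_zeroLocus_iff.1 hx) _ (Ideal.subset_span ⟨c, rfl⟩)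
    · rw [val_of_not_full f ((semi_iff f).2 hf) L hfull, val_homog f d hd hfd]
  exact h4

end Pool.Agent.BNS
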