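import Mathlib
import Pool.Agent.BNS.Fin
import Pool.Agent.BNR.TwD

/-!
BNS-Exp: explicit Noether normalization for matrix semi-invariants.
-/

set_option autoImplicit false

namespace Pool.Agent.BNS

open MvPolynomial Matrix

/-- **Explicit Noether normalization for matrix semi-invariants.**  Every polynomial function on
`m`-tuples of `n × n` matrices which is invariant under `X ↦ g X h`, `det g = det h = 1`, is
integral over the algebra generated by the explicit invariants `det (∑ X_e ⊗ TT_e(t, a, b))`. -/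
theorem noether_explicit {m n N : ℕ} [NeZero N] (ζ : ℂ) (hζ : IsPrimitiveRoot ζ N)
    (hN : 2 * (m * n ^ 2) < N) (f : PT m n) (hf : IsSemi f) :
    IsIntegral (Algebra.adjoin ℂ {x : PT m n | ∃ t a b : ℕ, t ≤ n * N * N ∧ a ≤ n * N * N ∧ b ≤ n * N * N ∧
      x = dY (n := n) (BNR.TT ℂ N ζ t a b)}) f := by
  set S : Set (PT m n) := {x | ∃ t a b : ℕ, t ≤ n * N * N ∧ a ≤ n * N * N ∧ b ≤ n * N * N ∧
      x = dY (n := n) (BNR.TT ℂ N ζ t a b)} with hS
  rcases Nat.eq_zero_or_pos n with hn | hn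
  · subst hn
    have h1 : f = C (coeff 0 f) := MvPolynomial.eq_C_of_isEmpty f
    have h2 : (algebraMap (Algebra.adjoin ℂ S) (PT m 0))
        (algebraMap ℂ (Algebra.adjoin ℂ S) (coeff 0 f)) = C (coeff 0 f) := rfl
    rw [h1, ← h2]
    exact isIntegral_algebraMap
  · have : Nonempty (Fin N) := ⟨0⟩
    let B := Fin (n * N * N + 1)
    let Y : B × B × B → Fin m → Matrix (Fin N) (Fin N) ℂ := fun c e =>
      BNR.TT ℂ N ζ c.1 c.2.1 c.2.2 e
    have h1 := noether hn Y (by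
      intro L hL
      obtain ⟨t, a, b, ht, ha, hb, h⟩ := BNR.det_hit ζ hζ L hN hL
      exact ⟨(⟨t, Nat.lt_succ_of_le ht⟩, ⟨a, Nat.lt_succ_of_le ha⟩, ⟨b, Nat.lt_succ_of_le hb⟩), h⟩)
      f hf
    have h2 : (Set.range fun c => dY (n := n) (Y c)) = S := by
      ext x
      constructor
      · rintro ⟨c, rfl⟩
        exact ⟨c.1, c.2.1, c.2.2, Nat.lt_succ_iff.1 c.1.2, Nat.lt_succ_iff.1 c.2.1.2,
          Nat.lt_succ_iff.1 c.2.2.2, rfl⟩
      · rintro ⟨t, a, b, ht, ha, hb, rfl⟩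
        exact ⟨(⟨t, Nat.lt_succ_of_le ht⟩, ⟨a, Nat.lt_succ_of_le ha⟩, ⟨b, Nat.lt_succ_of_le hb⟩),
          rfl⟩
    rw [h2] at h1
    exact h1

end Pool.Agent.BNS
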