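import Mathlib

/-!
BNS-SA: the traces of the powers determine the determinant (characteristic zero).

PLAN. Pass to the algebraic closure.  The traces of the powers are the power sums of the roots of
the characteristic polynomial (`Matrix.trace_eq_sum_roots_charpoly`, and for powers
`Matrix.charpoly_pow..`/upper triangular form; in the tree: `Matrix.IsHermitian`-free versions, or
`Module.End` generalized eigenspaces), the determinant is the product of the roots
(`Matrix.det_eq_prod_roots_charpoly`).  By Newton's identities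
(`MvPolynomial.psum_eq_mul_esymm_sub_sum`, `mul_esymm_eq_sum`) the elementary symmetric functions
are polynomials in the power sums.
Alternative without eigenvalues: for `D(t) = det (1 - t P)` in `K[t]` or `K⟦t⟧`,
`- t D'(t) = D(t) ∑ (k ≥ 1) tr (P ^ k) t ^ k` (derivative of the determinant: Jacobi's formula,
`(1 - t P)⁻¹ = ∑ t ^ k P ^ k`); this recursion for the coefficients of `D` and `D(0) = 1` determine
`D`, and `det P` is up to sign the coefficient of degree `card κ`.
Another alternative: Cayley-Hamilton and induction on coefficients of the characteristic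
polynomial.
-/

set_option autoImplicit false

namespace Pool.Agent.BNS

open Matrix

/-- Jacobi's formula, column form. -/
private theorem sa_col {R : Type*} [CommRing R] {𝔅 : Type*} [Fintype 𝔅] [DecidableEq 𝔅]
    (N : Matrix 𝔅 𝔅 (Polynomial R)) :
    Polynomial.derivative N.det
      = ∑ i, (N.updateCol i (fun k => Polynomial.derivative (N k i))).det := by
  classical
  simp only [Matrix.det_apply]
  rw [Polynomial.derivative_sum, Finset.sum_comm]
  refine Finset.sum_congr rfl fun σ _ => ?_
  rw [Units.smul_def, Polynomial.derivative_smul, Polynomial.derivative_prod_finset]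
  rw [Finset.smul_sum]
  refine Finset.sum_congr rfl fun i _ => ?_
  rw [Units.smul_def]
  congr 1
  rw [← Finset.prod_erase_mul _ _ (Finset.mem_univ i)]
  congr 1
  · refine Finset.prod_congr rfl fun j hj => ?_
    rw [Matrix.updateCol_ne (Finset.ne_of_mem_erase hj)]
  · rw [Matrix.updateCol_self]

private theorem sa_tr {R : Type*} [CommRing R] {𝔅 : Type*} [Fintype 𝔅] [DecidableEq 𝔅]
    (N : Matrix 𝔅 𝔅 (Polynomial R)) :
    Polynomial.derivative N.det
      = (N.adjugate * N.map Polynomial.derivative).trace := by
  rw [sa_col, Matrix.trace]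
  refine Finset.sum_congr rfl fun i _ => ?_
  rw [← Matrix.cramer_apply, Matrix.cramer_eq_adjugate_mulVec]
  rfl

private theorem sa_newton {R : Type*} [CommRing R] {𝔅 : Type*} [Fintype 𝔅] [DecidableEq 𝔅]
    (M : Matrix 𝔅 𝔅 R) (κ : ℕ) :
    ((κ : R) + 1) * M.charpolyRev.coeff (κ + 1)
      = - ∑ m ∈ Finset.range (κ + 1), (M ^ (m + 1)).trace * M.charpolyRev.coeff (κ - m) := by
  classical
  set N : Matrix 𝔅 𝔅 (Polynomial R) := 1 - (Polynomial.X : Polynomial R) • M.map Polynomial.C
    with hN
  have hc : M.charpolyRev = N.det := rfl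
  let B : ℕ → Matrix 𝔅 𝔅 R := fun k => N.adjugate.map (fun p => p.coeff k)
  -- recursion for `B`
  have hadj : N * N.adjugate = M.charpolyRev • (1 : Matrix 𝔅 𝔅 (Polynomial R)) := by
    rw [hc, Matrix.mul_adjugate]
  have hent : ∀ i j, N.adjugate i j - Polynomial.X * (M.map Polynomial.C * N.adjugate) i j
      = M.charpolyRev * (1 : Matrix 𝔅 𝔅 (Polynomial R)) i j := by
    intro i j
    have h := congrFun (congrFun hadj i) j
    rw [hN, Matrix.sub_mul, Matrix.one_mul, Matrix.smul_mul, ← hN] at h
    simpa [Matrix.sub_apply, Matrix.smul_apply, smul_eq_mul] using h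
  have hone : ∀ i j k, (M.charpolyRev * (1 : Matrix 𝔅 𝔅 (Polynomial R)) i j).coeff k
      = M.charpolyRev.coeff k * (1 : Matrix 𝔅 𝔅 R) i j := by
    intro i j k
    by_cases hij : i = j
    · subst hij
      simp
    · simp [Matrix.one_apply_ne hij]
  have hcoef : ∀ i j k, (Polynomial.X * (M.map Polynomial.C * N.adjugate) i j).coeff (k + 1)
      = (M * B k) i j := by
    intro i j k
    rw [Polynomial.coeff_X_mul, Matrix.mul_apply, Matrix.mul_apply, Polynomial.finsetSum_coeff]
    refine Finset.sum_congr rfl fun l _ => ?_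
    simp [B]
  have hB0 : B 0 = M.charpolyRev.coeff 0 • (1 : Matrix 𝔅 𝔅 R) := by
    ext i j
    have h := congrArg (fun p => Polynomial.coeff p 0) (hent i j)
    simp only [Polynomial.coeff_sub, hone] at h
    rw [Polynomial.coeff_X_mul_zero, sub_zero] at h
    rw [Matrix.smul_apply, smul_eq_mul, ← h]
    rfl
  have hBs : ∀ k, B (k + 1) = M * B k + M.charpolyRev.coeff (k + 1) • (1 : Matrix 𝔅 𝔅 R) := by
    intro k
    ext i j
    have h := congrArg (fun p => Polynomial.coeff p (k + 1)) (hent i j)
    simp only [Polynomial.coeff_sub, hone, hcoef] at h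
    rw [Matrix.add_apply, Matrix.smul_apply, smul_eq_mul, ← h]
    simp [B]
  have hB : ∀ k, B k = ∑ m ∈ Finset.range (k + 1), M.charpolyRev.coeff (k - m) • M ^ m := by
    intro k
    induction k with
    | zero => simp [hB0]
    | succ k ih =>
      rw [hBs, ih, Finset.sum_range_succ' _ (k + 1), Finset.mul_sum, Nat.sub_zero, pow_zero]
      refine congrArg (fun t => t + _) (Finset.sum_congr rfl fun m _ => ?_)
      rw [Matrix.mul_smul, ← pow_succ', Nat.succ_sub_succ]
  -- Jacobi
  have hJ := sa_tr N
  have hmap : N.map Polynomial.derivative = - M.map Polynomial.C := by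
    ext1 i j
    by_cases hij : i = j
    · subst hij
      simp [hN]
    · simp [hN, Matrix.one_apply_ne hij]
  rw [hmap, Matrix.mul_neg, Matrix.trace_neg, ← hc] at hJ
  have hJc := congrArg (fun p => Polynomial.coeff p κ) hJ
  simp only [Polynomial.coeff_derivative, Polynomial.coeff_neg] at hJc
  have htr : (N.adjugate * M.map Polynomial.C).trace.coeff κ = (B κ * M).trace := by
    rw [Matrix.trace, Matrix.trace, Polynomial.finsetSum_coeff]
    refine Finset.sum_congr rfl fun i _ => ?_
    rw [Matrix.diag_apply, Matrix.diag_apply, Matrix.mul_apply, Matrix.mul_apply,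
      Polynomial.finsetSum_coeff]
    refine Finset.sum_congr rfl fun l _ => ?_
    simp [B]
  rw [htr, hB, Matrix.sum_mul, Matrix.trace_sum] at hJc
  rw [mul_comm, hJc]
  congr 1
  refine Finset.sum_congr rfl fun m _ => ?_
  rw [Matrix.smul_mul, Matrix.trace_smul, ← pow_succ, smul_eq_mul, mul_comm]


private theorem sa_coeff {K : Type*} [Field K] [CharZero K] {κ : Type*} [Fintype κ] [DecidableEq κ]
    (P Q : Matrix κ κ K) (h : ∀ k : ℕ, 1 ≤ k → (P ^ k).trace = (Q ^ k).trace) (n : ℕ) :
    P.charpolyRev.coeff n = Q.charpolyRev.coeff n := by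
  induction n using Nat.strong_induction_on with
  | _ n ih =>
    rcases n with _ | n
    · have e : ∀ M : Matrix κ κ K, M.charpolyRev.coeff 0 = 1 := fun M => by
        rw [Polynomial.coeff_zero_eq_eval_zero, Matrix.eval_charpolyRev]
      rw [e, e]
    · have h1 := sa_newton P n
      have h2 := sa_newton Q n
      have h3 : ∑ m ∈ Finset.range (n + 1), (P ^ (m + 1)).trace * P.charpolyRev.coeff (n - m) =
          ∑ m ∈ Finset.range (n + 1), (Q ^ (m + 1)).trace * Q.charpolyRev.coeff (n - m) := by
        refine Finset.sum_congr rfl fun m _ => ?_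
        rw [h (m + 1) (by omega), ih (n - m) (by omega)]
      rw [h3, ← h2] at h1
      have hne : ((n : K) + 1) ≠ 0 := by exact_mod_cast Nat.succ_ne_zero n
      exact mul_left_cancel₀ hne h1

theorem det_eq_of_trace {K : Type*} [Field K] [CharZero K] {κ : Type*} [Fintype κ] [DecidableEq κ]
    (P Q : Matrix κ κ K) (h : ∀ k : ℕ, 1 ≤ k → (P ^ k).trace = (Q ^ k).trace) :
    P.det = Q.det := by
  have h1 : P.charpolyRev = Q.charpolyRev := Polynomial.ext (sa_coeff P Q h)
  have h2 : ∀ M : Matrix κ κ K, M.charpoly.coeff 0 = M.charpolyRev.coeff (Fintype.card κ) := by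
    intro M
    rw [← Matrix.reverse_charpoly, Polynomial.coeff_reverse, Matrix.charpoly_natDegree_eq_dim,
      Polynomial.revAt_le le_rfl, Nat.sub_self]
  rw [Matrix.det_eq_sign_charpoly_coeff, Matrix.det_eq_sign_charpoly_coeff, h2, h2, h1]

end Pool.Agent.BNS
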