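import Mathlib
import Pool.Agent.BNS.SA

/-!
BNS-SB: the traces of the words determine the determinants `det (∑ W_j ⊗ S_j)`.

PLAN. `pow_kr`: induction on `k` as `NCP.pow_kron` in `Pool/Agent/NCP/Tri.lean` (there for one index
type): `(∑ j, W j ⊗ S j) ^ k = ∑ g : Fin k → J, (word of W) ⊗ (word of S)`
(`Fin.consEquiv`/`Fin.snocEquiv`, `Matrix.mul_kronecker_mul`, `Finset.sum_mul_sum`).
`det_of_words`: `det_eq_of_trace`, the trace of a Kronecker product is the product of the traces
(`Matrix.trace_kronecker`).
-/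

set_option autoImplicit false

namespace Pool.Agent.BNS

open Matrix

variable {K : Type*} [Field K] {J ι κ : Type*} [Fintype J] [Fintype ι] [DecidableEq ι] [Fintype κ]
  [DecidableEq κ]

theorem pow_kr (W : J → Matrix ι ι K) (S : J → Matrix κ κ K) (k : ℕ) :
    (∑ j, kroneckerMap (· * ·) (W j) (S j)) ^ k =
      ∑ g : Fin k → J, kroneckerMap (· * ·) ((List.ofFn g).map W).prod
        ((List.ofFn g).map S).prod := by
  induction k with
  | zero =>
    rw [pow_zero, Fintype.sum_unique]
    simp only [List.ofFn_zero, List.map_nil, List.prod_nil]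
    exact Matrix.one_kronecker_one.symm
  | succ l ih =>
    rw [pow_succ', ih, Finset.sum_mul_sum]
    rw [← Fintype.sum_equiv (Fin.consEquiv (fun _ : Fin (l + 1) => J))
      (fun q : J × (Fin l → J) => kroneckerMap (· * ·) ((List.ofFn (Fin.cons q.1 q.2 :
        Fin (l + 1) → J)).map W).prod ((List.ofFn (Fin.cons q.1 q.2 :
        Fin (l + 1) → J)).map S).prod) _ (fun q => rfl)]
    rw [Fintype.sum_prod_type]
    refine Finset.sum_congr rfl fun i _ => Finset.sum_congr rfl fun g _ => ?_
    simp only [List.ofFn_cons, List.map_cons, List.prod_cons]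
    exact (Matrix.mul_kronecker_mul _ _ _ _).symm

theorem det_of_words [CharZero K] (W W' : J → Matrix ι ι K) (S : J → Matrix κ κ K)
    (h : ∀ w : List J, (w.map W).prod.trace = (w.map W').prod.trace) :
    (∑ j, kroneckerMap (· * ·) (W j) (S j)).det =
      (∑ j, kroneckerMap (· * ·) (W' j) (S j)).det := by
  refine det_eq_of_trace _ _ fun k _ => ?_
  rw [pow_kr, pow_kr, Matrix.trace_sum, Matrix.trace_sum]
  refine Finset.sum_congr rfl fun g _ => ?_
  have h1 : ∀ (A : Matrix ι ι K) (B : Matrix κ κ K),
      (kroneckerMap (· * ·) A B).trace = A.trace * B.trace := fun A B =>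
    Matrix.trace_kronecker A B
  rw [h1, h1, h]

end Pool.Agent.BNS
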