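import Mathlib
import Pool.Agent.BNS.Exp
import Pool.Agent.NCP.Sep

/-!
BNS-SDefs: explicit separating semi-invariants, definitions.
-/

set_option autoImplicit false

namespace Pool.Agent.BNS

open Matrix

variable {m n N : ℕ}

/-- `adj (∑ A_e ⊗ Y_e) * (A_f ⊗ E_ab)` -/
noncomputable def zm (A : Fin m → Matrix (Fin n) (Fin n) ℂ) (Y : Fin m → Matrix (Fin N) (Fin N) ℂ)
    (f : Fin m) (a b : Fin N) : Matrix (Fin n × Fin N) (Fin n × Fin N) ℂ :=
  (BNR.ev A Y).adjugate * kroneckerMap (· * ·) (A f) (Matrix.single a b 1)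

/-- the matrices `zm A Y f a b`, reindexed as a tuple of `m * (N * N)` matrices of size `n * N` -/
noncomputable def zr (A : Fin m → Matrix (Fin n) (Fin n) ℂ) (Y : Fin m → Matrix (Fin N) (Fin N) ℂ)
    (i : Fin (m * (N * N))) : Matrix (Fin (n * N)) (Fin (n * N)) ℂ :=
  Matrix.reindex finProdFinEquiv finProdFinEquiv
    (zm A Y (finProdFinEquiv.symm i).1 (finProdFinEquiv.symm (finProdFinEquiv.symm i).2).1
      (finProdFinEquiv.symm (finProdFinEquiv.symm i).2).2)

/-- the number of the explicit invariants of each degree, minus one -/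
def sM (m n N : ℕ) : ℕ := m * (N * N) * (2 * (n * N) ^ 2) ^ 4

/-- the explicit invariant: entry in row `p`, column `0` of the partial trace of
`(∑ zr_i ⊗ X_i) ^ l` -/
noncomputable def eInv (A : Fin m → Matrix (Fin n) (Fin n) ℂ)
    (Y : Fin m → Matrix (Fin N) (Fin N) ℂ) (l : ℕ) (p : Fin (sM m n N + 1)) : ℂ :=
  NCP.trinv ℂ (zr A Y) (sM m n N) l p

/-- `A` and `B` have the same explicit invariants belonging to the tuple `Y` -/
def SameInv (A B : Fin m → Matrix (Fin n) (Fin n) ℂ) (Y : Fin m → Matrix (Fin N) (Fin N) ℂ) :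
    Prop :=
  (BNR.ev A Y).det = (BNR.ev B Y).det ∧ ∀ (l : ℕ) (p : Fin (sM m n N + 1)), 1 ≤ l →
    l < 2 * (n * N) ^ 2 → eInv A Y l p = eInv B Y l p

end Pool.Agent.BNS
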