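import Mathlib
import Pool.Agent.BNS.SDefs
import Pool.Agent.BNS.SB

/-!
BNS-SC: reduction of `det (∑ A_f ⊗ S_f)` to the explicit invariants.
-/

set_option autoImplicit false

namespace Pool.Agent.BNS

open Matrix

variable {m n N : ℕ} {κ : Type*} [Fintype κ] [DecidableEq κ]

private theorem sc_single : ∑ a : Fin N, Matrix.single a a (1 : ℂ) = 1 := by
  ext i j
  rw [Matrix.sum_apply]
  simp only [Matrix.single_apply, Matrix.one_apply]
  by_cases h : i = j
  · subst h
    simp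
  · rw [if_neg h]
    refine Finset.sum_eq_zero fun c _ => ?_
    rw [if_neg]
    rintro ⟨h1, h2⟩
    exact h (h1.symm.trans h2)

theorem zm_sum (A : Fin m → Matrix (Fin n) (Fin n) ℂ) (Y : Fin m → Matrix (Fin N) (Fin N) ℂ)
    (f : Fin m) : ∑ a, zm A Y f a a =
      (BNR.ev A Y).adjugate * kroneckerMap (· * ·) (A f) (1 : Matrix (Fin N) (Fin N) ℂ) := by
  have h1 : ∑ a : Fin N, kroneckerMap (· * ·) (A f) (Matrix.single a a (1 : ℂ)) =
      kroneckerMap (· * ·) (A f) (1 : Matrix (Fin N) (Fin N) ℂ) := by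
    rw [← sc_single]
    ext i j
    rw [Matrix.sum_apply]
    simp only [Matrix.kroneckerMap_apply, Matrix.sum_apply]
    rw [Finset.mul_sum]
  unfold zm
  rw [← Matrix.mul_sum, h1]

theorem det_red (A : Fin m → Matrix (Fin n) (Fin n) ℂ) (Y : Fin m → Matrix (Fin N) (Fin N) ℂ)
    (S : Fin m → Matrix κ κ ℂ) :
    (∑ f, kroneckerMap (· * ·) (∑ a, zm A Y f a a) (S f)).det =
      ((BNR.ev A Y).det ^ (n * N - 1)) ^ Fintype.card κ * (BNR.ev A S).det ^ N := by
  have h1 : ∑ f, kroneckerMap (· * ·) (∑ a, zm A Y f a a) (S f) =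
      kroneckerMap (· * ·) (BNR.ev A Y).adjugate (1 : Matrix κ κ ℂ) *
        ∑ f, kroneckerMap (· * ·)
          (kroneckerMap (· * ·) (A f) (1 : Matrix (Fin N) (Fin N) ℂ)) (S f) := by
    rw [Matrix.mul_sum]
    refine Finset.sum_congr rfl fun f _ => ?_
    rw [zm_sum, ← Matrix.mul_kronecker_mul, Matrix.one_mul]
  have h2 : (∑ f, kroneckerMap (· * ·)
      (kroneckerMap (· * ·) (A f) (1 : Matrix (Fin N) (Fin N) ℂ)) (S f)).det =
      (BNR.ev A S).det ^ N := by
    let e : (Fin n × κ) × Fin N ≃ (Fin n × Fin N) × κ :=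
      { toFun := fun x => ((x.1.1, x.2), x.1.2)
        invFun := fun y => ((y.1.1, y.2), y.1.2)
        left_inv := fun _ => rfl
        right_inv := fun _ => rfl }
    rw [← Matrix.det_submatrix_equiv_self e]
    have h3 : (∑ f, kroneckerMap (· * ·)
        (kroneckerMap (· * ·) (A f) (1 : Matrix (Fin N) (Fin N) ℂ)) (S f)).submatrix e e =
        kroneckerMap (· * ·) (BNR.ev A S) (1 : Matrix (Fin N) (Fin N) ℂ) := by
      ext x y
      simp only [Matrix.submatrix_apply, Matrix.sum_apply, Matrix.kroneckerMap_apply, BNR.ev]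
      rw [Finset.sum_mul]
      refine Finset.sum_congr rfl fun f _ => ?_
      show A f x.1.1 y.1.1 * (1 : Matrix (Fin N) (Fin N) ℂ) x.2 y.2 * S f x.1.2 y.1.2 = _
      ring
    rw [h3, Matrix.det_kronecker, Matrix.det_one, one_pow, mul_one, Fintype.card_fin]
  rw [h1, Matrix.det_mul, h2, Matrix.det_kronecker, Matrix.det_one, one_pow, mul_one,
    Matrix.det_adjugate, Fintype.card_prod, Fintype.card_fin, Fintype.card_fin]

omit [Fintype κ] [DecidableEq κ] in
private theorem sc_sum (A : Fin m → Matrix (Fin n) (Fin n) ℂ)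
    (Y : Fin m → Matrix (Fin N) (Fin N) ℂ) (S : Fin m → Matrix κ κ ℂ) :
    ∑ j : Fin m × Fin N × Fin N, kroneckerMap (· * ·) (zm A Y j.1 j.2.1 j.2.2)
      (if j.2.1 = j.2.2 then S j.1 else 0) =
    ∑ f, kroneckerMap (· * ·) (∑ a, zm A Y f a a) (S f) := by
  rw [Fintype.sum_prod_type]
  refine Finset.sum_congr rfl fun f _ => ?_
  rw [Fintype.sum_prod_type]
  ext x y
  simp only [Matrix.sum_apply, Matrix.kroneckerMap_apply]
  rw [Finset.sum_mul]
  refine Finset.sum_congr rfl fun a _ => ?_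
  rw [Finset.sum_eq_single a]
  · rw [if_pos rfl]
  · intro b _ hb
    rw [if_neg (Ne.symm hb), Matrix.zero_apply, mul_zero]
  · intro h
    exact absurd (Finset.mem_univ a) h

theorem red (A B : Fin m → Matrix (Fin n) (Fin n) ℂ) (Y : Fin m → Matrix (Fin N) (Fin N) ℂ)
    (S : Fin m → Matrix κ κ ℂ) (hD : (BNR.ev A Y).det ≠ 0)
    (hAB : (BNR.ev A Y).det = (BNR.ev B Y).det)
    (h : ∀ w : List (Fin m × Fin N × Fin N), (w.map fun j => zm A Y j.1 j.2.1 j.2.2).prod.trace =
      (w.map fun j => zm B Y j.1 j.2.1 j.2.2).prod.trace) :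
    (BNR.ev A S).det ^ N = (BNR.ev B S).det ^ N := by
  have h1 := det_of_words (fun j : Fin m × Fin N × Fin N => zm A Y j.1 j.2.1 j.2.2)
    (fun j : Fin m × Fin N × Fin N => zm B Y j.1 j.2.1 j.2.2)
    (fun j : Fin m × Fin N × Fin N => if j.2.1 = j.2.2 then S j.1 else 0) h
  rw [sc_sum, sc_sum, det_red, det_red, ← hAB] at h1
  exact mul_left_cancel₀ (pow_ne_zero _ (pow_ne_zero _ hD)) h1

end Pool.Agent.BNS
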