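import Mathlib
import Pool.Agent.BNS.SDefs

/-!
BNS-SD: the explicit invariants determine the traces of all words; they are invariant.

PLAN. `words_of_same`: `NCP.trinv_separate` for the tuples `zr A Y`, `zr B Y`
(`sM m n N = m * (N * N) * (2 * (n * N) ^ 2) ^ 4`) gives equal traces of all words in the `zr`.
A word in the `zm` is a word in the `zr` after reindexing: `Matrix.reindexAlgEquiv` is
multiplicative and preserves the trace (`Matrix.trace_submatrix_equiv`/`trace_reindex`); for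
`w : List (Fin m × Fin N × Fin N)` use the word
`w.map fun j => finProdFinEquiv (j.1, finProdFinEquiv (j.2.1, j.2.2))`.
`zm_inv`: for `det g = det h = 1`: `ev (g A h) Y = (g ⊗ 1) * ev A Y * (h ⊗ 1)`, its adjugate is
`adj (h ⊗ 1) * adj (ev A Y) * adj (g ⊗ 1)` (`Matrix.adjugate_mul_distrib`), and
`adj (g ⊗ 1) * (g ⊗ 1) = det (g ⊗ 1) • 1 = 1`, so
`zm (g A h) Y f a b = adj (h ⊗ 1) * zm A Y f a b * (h ⊗ 1)`, which is a conjugation.
`eInv_inv`: conjugation of all `zr` by one matrix does not change `trinv` (see `NCP.conj_word`,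
`NCP.trinv_eq` in `Pool/Agent/NCP/Fin.lean`, `Tri.lean`, `Invt.lean`).
-/

set_option autoImplicit false

namespace Pool.Agent.BNS

open Matrix

variable {m n N : ℕ}

private theorem ri_mul (P Q : Matrix (Fin n × Fin N) (Fin n × Fin N) ℂ) :
    Matrix.reindex finProdFinEquiv finProdFinEquiv P *
      Matrix.reindex finProdFinEquiv finProdFinEquiv Q =
      Matrix.reindex (finProdFinEquiv (m := n) (n := N)) finProdFinEquiv (P * Q) := by
  simp only [Matrix.reindex_apply]
  exact Matrix.submatrix_mul_equiv P Q _ _ _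

private theorem ri_one :
    Matrix.reindex (finProdFinEquiv (m := n) (n := N)) finProdFinEquiv
      (1 : Matrix (Fin n × Fin N) (Fin n × Fin N) ℂ) = 1 := by
  simp only [Matrix.reindex_apply]
  exact Matrix.submatrix_one_equiv _

private theorem trace_ri (P : Matrix (Fin n × Fin N) (Fin n × Fin N) ℂ) :
    (Matrix.reindex (finProdFinEquiv (m := n) (n := N)) finProdFinEquiv P).trace = P.trace := by
  simp only [Matrix.reindex_apply, Matrix.trace, Matrix.diag_apply, Matrix.submatrix_apply]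
  exact Equiv.sum_comp finProdFinEquiv.symm fun x => P x x

private theorem conj_w {k r : ℕ} (g g' : Matrix (Fin r) (Fin r) ℂ) (hg : g' * g = 1)
    (hg' : g * g' = 1) (A : Fin k → Matrix (Fin r) (Fin r) ℂ) (w : List (Fin k)) :
    (w.map fun i => g * A i * g').prod = g * (w.map A).prod * g' := by
  induction w with
  | nil => simp [hg']
  | cons i w ih =>
    rw [List.map_cons, List.prod_cons, ih, List.map_cons, List.prod_cons]
    calc g * A i * g' * (g * (w.map A).prod * g') =
        g * A i * (g' * g) * (w.map A).prod * g' := by simp only [mul_assoc]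
      _ = g * (A i * (w.map A).prod) * g' := by rw [hg, mul_one]; simp only [mul_assoc]

private theorem zr_word (A : Fin m → Matrix (Fin n) (Fin n) ℂ)
    (Y : Fin m → Matrix (Fin N) (Fin N) ℂ) (w : List (Fin m × Fin N × Fin N)) :
    ((w.map fun j => finProdFinEquiv (j.1, finProdFinEquiv (j.2.1, j.2.2))).map (zr A Y)).prod =
      Matrix.reindex finProdFinEquiv finProdFinEquiv
        (w.map fun j => zm A Y j.1 j.2.1 j.2.2).prod := by
  induction w with
  | nil =>
    simp only [List.map_nil, List.prod_nil]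
    exact ri_one.symm
  | cons j w ih =>
    rw [List.map_cons, List.map_cons, List.prod_cons, ih, List.map_cons, List.prod_cons, ← ri_mul]
    congr 1
    simp only [zr, Equiv.symm_apply_apply]

private theorem zm_conj (g h : Matrix (Fin n) (Fin n) ℂ) (hg : g.det = 1)
    (A : Fin m → Matrix (Fin n) (Fin n) ℂ) (Y : Fin m → Matrix (Fin N) (Fin N) ℂ)
    (f : Fin m) (a b : Fin N) :
    zm (fun e => g * A e * h) Y f a b =
      (kroneckerMap (· * ·) h (1 : Matrix (Fin N) (Fin N) ℂ)).adjugate * zm A Y f a b *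
        kroneckerMap (· * ·) h (1 : Matrix (Fin N) (Fin N) ℂ) := by
  obtain ⟨P, hP⟩ : ∃ P : Matrix (Fin n × Fin N) (Fin n × Fin N) ℂ,
    P = kroneckerMap (· * ·) g (1 : Matrix (Fin N) (Fin N) ℂ) := ⟨_, rfl⟩
  obtain ⟨Q, hQ⟩ : ∃ Q : Matrix (Fin n × Fin N) (Fin n × Fin N) ℂ,
    Q = kroneckerMap (· * ·) h (1 : Matrix (Fin N) (Fin N) ℂ) := ⟨_, rfl⟩
  have hPd : P.det = 1 := by
    rw [hP]
    have h1 := Matrix.det_kronecker g (1 : Matrix (Fin N) (Fin N) ℂ)
    rw [Matrix.det_one, one_pow, hg, one_pow, one_mul] at h1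
    exact h1
  have hP2 : P.adjugate * P = 1 := by rw [Matrix.adjugate_mul, hPd, one_smul]
  have hk : ∀ (B : Matrix (Fin n) (Fin n) ℂ) (C : Matrix (Fin N) (Fin N) ℂ),
      kroneckerMap (· * ·) (g * B * h) C = P * kroneckerMap (· * ·) B C * Q := by
    intro B C
    have h2 := Matrix.mul_kronecker_mul g B (1 : Matrix (Fin N) (Fin N) ℂ) C
    have h3 := Matrix.mul_kronecker_mul (g * B) h (1 * C) (1 : Matrix (Fin N) (Fin N) ℂ)
    rw [h2, one_mul, mul_one] at h3
    rw [hP, hQ]
    exact h3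
  have hev : BNR.ev (fun e => g * A e * h) Y = P * BNR.ev A Y * Q := by
    rw [BNR.ev, BNR.ev, Finset.mul_sum, Finset.sum_mul]
    exact Finset.sum_congr rfl fun e _ => hk (A e) (Y e)
  rw [zm, zm, hev, hk, Matrix.adjugate_mul_distrib, Matrix.adjugate_mul_distrib, ← hQ]
  calc Q.adjugate * ((BNR.ev A Y).adjugate * P.adjugate) *
        (P * kroneckerMap (· * ·) (A f) (Matrix.single a b 1) * Q) =
      Q.adjugate * ((BNR.ev A Y).adjugate * (P.adjugate * P) *
        kroneckerMap (· * ·) (A f) (Matrix.single a b 1)) * Q := by simp only [mul_assoc]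
    _ = _ := by rw [hP2, mul_one]

theorem words_of_same (A B : Fin m → Matrix (Fin n) (Fin n) ℂ)
    (Y : Fin m → Matrix (Fin N) (Fin N) ℂ) (h : SameInv A B Y)
    (w : List (Fin m × Fin N × Fin N)) :
    (w.map fun j => zm A Y j.1 j.2.1 j.2.2).prod.trace =
      (w.map fun j => zm B Y j.1 j.2.1 j.2.2).prod.trace := by
  have h1 := NCP.trinv_separate ℂ (zr A Y) (zr B Y) (fun l p hl hl' => h.2 l p hl hl')
    (w.map fun j => finProdFinEquiv (j.1, finProdFinEquiv (j.2.1, j.2.2)))
  rw [zr_word, zr_word, trace_ri, trace_ri] at h1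
  exact h1

theorem eInv_inv (g h : Matrix (Fin n) (Fin n) ℂ) (hg : g.det = 1) (hh : h.det = 1)
    (A : Fin m → Matrix (Fin n) (Fin n) ℂ) (Y : Fin m → Matrix (Fin N) (Fin N) ℂ) (l : ℕ)
    (p : Fin (sM m n N + 1)) :
    eInv (fun e => g * A e * h) Y l p = eInv A Y l p := by
  obtain ⟨Q, hQ⟩ : ∃ Q : Matrix (Fin n × Fin N) (Fin n × Fin N) ℂ,
    Q = kroneckerMap (· * ·) h (1 : Matrix (Fin N) (Fin N) ℂ) := ⟨_, rfl⟩
  have hQd : Q.det = 1 := by
    rw [hQ]
    have h1 := Matrix.det_kronecker h (1 : Matrix (Fin N) (Fin N) ℂ)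
    rw [Matrix.det_one, one_pow, hh, one_pow, one_mul] at h1
    exact h1
  have hQ1 : Q * Q.adjugate = 1 := by rw [Matrix.mul_adjugate, hQd, one_smul]
  have hQ2 : Q.adjugate * Q = 1 := by rw [Matrix.adjugate_mul, hQd, one_smul]
  obtain ⟨R, hR⟩ : ∃ R : Matrix (Fin (n * N)) (Fin (n * N)) ℂ,
    R = Matrix.reindex finProdFinEquiv finProdFinEquiv Q := ⟨_, rfl⟩
  obtain ⟨R', hR'⟩ : ∃ R' : Matrix (Fin (n * N)) (Fin (n * N)) ℂ,
    R' = Matrix.reindex finProdFinEquiv finProdFinEquiv Q.adjugate := ⟨_, rfl⟩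
  have hRR : R * R' = 1 := by rw [hR, hR', ri_mul, hQ1, ri_one]
  have hRR' : R' * R = 1 := by rw [hR, hR', ri_mul, hQ2, ri_one]
  have hz : zr (fun e => g * A e * h) Y = fun i => R' * zr A Y i * R := by
    funext i
    rw [zr, zr, zm_conj g h hg A Y, hR, hR', ri_mul, ri_mul, hQ]
  rw [eInv, eInv, NCP.trinv_eq, NCP.trinv_eq, hz]
  refine Finset.sum_congr rfl fun v _ => ?_
  congr 1
  rw [conj_w R' R hRR hRR', Matrix.trace_mul_comm, ← mul_assoc, hRR, one_mul]

end Pool.Agent.BNS
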