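import Mathlib
import Pool.Agent.BNS.SC
import Pool.Agent.BNS.SD

/-!
BNS-Sep: explicit separating semi-invariants, assembly.
-/

set_option autoImplicit false

namespace Pool.Agent.BNS

open Matrix

variable {m n N : ℕ}

theorem ncrk_of_det {ι : Type*} [Fintype ι] [DecidableEq ι] [Nonempty ι]
    (L : Fin m → Matrix (Fin n) (Fin n) ℂ) (Y : Fin m → Matrix ι ι ℂ)
    (h : (BNR.ev L Y).det ≠ 0) : BNR.NcRk L n := by
  refine BNR.rank_le L n Y ?_
  have h1 := (Matrix.isUnit_iff_isUnit_det _).2 (isUnit_iff_ne_zero.2 h)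
  rw [Matrix.rank_of_isUnit _ h1, Fintype.card_prod, Fintype.card_fin]

/-- **Explicit separating semi-invariants.** -/
theorem separate [NeZero N] (ζ ζ' : ℂ) (hζ : IsPrimitiveRoot ζ N)
    (hζ' : IsPrimitiveRoot ζ' (N + 1)) (hN : 2 * (m * n ^ 2) < N)
    (A B : Fin m → Matrix (Fin n) (Fin n) ℂ)
    (h1 : ∀ t a b : ℕ, t ≤ n * N * N → a ≤ n * N * N → b ≤ n * N * N →
      SameInv A B (BNR.TT ℂ N ζ t a b))
    (h2 : ∀ t a b : ℕ, t ≤ n * (N + 1) * (N + 1) → a ≤ n * (N + 1) * (N + 1) →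
      b ≤ n * (N + 1) * (N + 1) → SameInv A B (BNR.TT ℂ (N + 1) ζ' t a b))
    {κ : Type*} [Fintype κ] [DecidableEq κ] (S : Fin m → Matrix κ κ ℂ) :
    (BNR.ev A S).det = (BNR.ev B S).det := by
  -- if one of the two tuples is nc-full, the determinants of powers agree
  have key : ∀ C D : Fin m → Matrix (Fin n) (Fin n) ℂ, BNR.NcRk C n →
      (∀ t a b : ℕ, t ≤ n * N * N → a ≤ n * N * N → b ≤ n * N * N →
        SameInv C D (BNR.TT ℂ N ζ t a b)) →
      (∀ t a b : ℕ, t ≤ n * (N + 1) * (N + 1) → a ≤ n * (N + 1) * (N + 1) →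
        b ≤ n * (N + 1) * (N + 1) → SameInv C D (BNR.TT ℂ (N + 1) ζ' t a b)) →
      (BNR.ev C S).det = (BNR.ev D S).det := by
    intro C D hC h1 h2
    obtain ⟨t, a, b, ht, ha, hb, h⟩ := BNR.det_hit ζ hζ C hN hC
    obtain ⟨t', a', b', ht', ha', hb', h'⟩ := BNR.det_hit ζ' hζ' C (by omega) hC
    have e1 := red C D _ S h (h1 t a b ht ha hb).1 (words_of_same C D _ (h1 t a b ht ha hb))
    have e2 := red C D _ S h' (h2 t' a' b' ht' ha' hb').1
      (words_of_same C D _ (h2 t' a' b' ht' ha' hb'))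
    have hN0 : N ≠ 0 := NeZero.ne N
    rcases eq_or_ne (BNR.ev C S).det 0 with h0 | h0
    · rw [h0, zero_pow hN0] at e1
      rw [h0]
      exact (pow_eq_zero_iff hN0).1 e1.symm |>.symm
    · rw [pow_succ, pow_succ, e1] at e2
      have h3 : (BNR.ev D S).det ^ N ≠ 0 := by
        rw [← e1]
        exact pow_ne_zero _ h0
      exact mul_left_cancel₀ h3 e2
  by_cases hA : BNR.NcRk A n
  · exact key A B hA h1 h2
  · by_cases hB : BNR.NcRk B n
    · refine (key B A hB (fun t a b ht ha hb => ?_) (fun t a b ht ha hb => ?_)).symm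
      · exact ⟨(h1 t a b ht ha hb).1.symm, fun l p hl hl' => ((h1 t a b ht ha hb).2 l p hl hl').symm⟩
      · exact ⟨(h2 t a b ht ha hb).1.symm, fun l p hl hl' => ((h2 t a b ht ha hb).2 l p hl hl').symm⟩
    · rcases isEmpty_or_nonempty κ with hκ | hκ
      · rw [Matrix.det_isEmpty, Matrix.det_isEmpty]
      · have h3 : (BNR.ev A S).det = 0 := by
          by_contra h
          exact hA (ncrk_of_det A S h)
        have h4 : (BNR.ev B S).det = 0 := by
          by_contra h
          exact hB (ncrk_of_det B S h)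
        rw [h3, h4]

end Pool.Agent.BNS
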