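import Mathlib
import Pool.Agent.BNS.Exp
import Pool.Agent.BNS.Sep

/-!
Explicit null cone, explicit Noether normalization and explicit separating invariants for the
left-right action of `SL_n × SL_n` on `m`-tuples of `n × n` matrices.
-/

set_option autoImplicit false

namespace Pool.Agent.Results.MP_e2be99_lc.MatrixSemiInvariants

open MvPolynomial Matrix Pool.Agent.BNS Pool.Agent.BNR

/-- Let `N > 2 m n ^ 2`, `ζ` a primitive `N`-th root of unity in `ℂ`, and `TT ℂ N ζ t a b`,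
`t, a, b ≤ n N ^ 2`, the explicit `m`-tuples of `N × N` matrices of `BNR.TT`.
(1) The polynomials `dY (TT ..)`, with values `det (∑ L_e ⊗ TT_e)`, are homogeneous of degree
`n N` and invariant under `L ↦ g L h`, `det g = det h = 1`.
(2) Their common zeros are the tuples which are not nc-full, and these are the points of the null
cone, where every invariant polynomial takes the same value as at `0`.
(3) Every invariant polynomial is integral over the algebra which they generate.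
(4) The numbers `eInv` are invariant under the action.
(5) The polynomials of (1), the invariants `eInv` of the tuples `TT ..` and the same invariants for
`N + 1` separate any two tuples `A`, `B` with `det (∑ A_e ⊗ S_e) ≠ det (∑ B_e ⊗ S_e)` for some
matrices `S_e` of any size. -/
theorem result (m n N : ℕ) [NeZero N] (hn : 0 < n) (hN : 2 * (m * n ^ 2) < N) (ζ ζ' : ℂ)
    (hζ : IsPrimitiveRoot ζ N) (hζ' : IsPrimitiveRoot ζ' (N + 1)) :
    (∀ t a b : ℕ, (dY (n := n) (TT ℂ (m := m) N ζ t a b)).IsHomogeneous (n * N) ∧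
      IsSemi (dY (n := n) (TT ℂ (m := m) N ζ t a b)) ∧
      ∀ L : Fin m → Matrix (Fin n) (Fin n) ℂ,
        val (dY (TT ℂ N ζ t a b)) L = (∑ e, kroneckerMap (· * ·) (L e) (TT ℂ N ζ t a b e)).det) ∧
    (∀ L : Fin m → Matrix (Fin n) (Fin n) ℂ,
      ((∀ t a b : ℕ, t ≤ n * N * N → a ≤ n * N * N → b ≤ n * N * N →
        (∑ e, kroneckerMap (· * ·) (L e) (TT ℂ N ζ t a b e)).det = 0) ↔
        ∀ f : PT m n, IsSemi f → val f L = val f 0) ∧
      ((∀ f : PT m n, IsSemi f → val f L = val f 0) ↔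
        ∃ U V : Submodule ℂ (Fin n → ℂ), (∀ e, ∀ u ∈ U, ∀ v ∈ V, u ⬝ᵥ (L e *ᵥ v) = 0) ∧
          n < Module.finrank ℂ U + Module.finrank ℂ V)) ∧
    (∀ f : PT m n, IsSemi f →
      IsIntegral (Algebra.adjoin ℂ {x : PT m n | ∃ t a b : ℕ, t ≤ n * N * N ∧ a ≤ n * N * N ∧
        b ≤ n * N * N ∧ x = dY (n := n) (TT ℂ N ζ t a b)}) f) ∧
    (∀ (Y : Fin m → Matrix (Fin N) (Fin N) ℂ) (g h : Matrix (Fin n) (Fin n) ℂ), g.det = 1 →
      h.det = 1 → ∀ (A : Fin m → Matrix (Fin n) (Fin n) ℂ) (l : ℕ) (p : Fin (sM m n N + 1)),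
        eInv (fun e => g * A e * h) Y l p = eInv A Y l p) ∧
    (∀ A B : Fin m → Matrix (Fin n) (Fin n) ℂ,
      (∀ t a b : ℕ, t ≤ n * N * N → a ≤ n * N * N → b ≤ n * N * N →
        SameInv A B (TT ℂ N ζ t a b)) →
      (∀ t a b : ℕ, t ≤ n * (N + 1) * (N + 1) → a ≤ n * (N + 1) * (N + 1) →
        b ≤ n * (N + 1) * (N + 1) → SameInv A B (TT ℂ (N + 1) ζ' t a b)) →
      ∀ (d : ℕ) (S : Fin m → Matrix (Fin d) (Fin d) ℂ),
        (∑ e, kroneckerMap (· * ·) (A e) (S e)).det =
          (∑ e, kroneckerMap (· * ·) (B e) (S e)).det) := by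
  have hfull : ∀ L : Fin m → Matrix (Fin n) (Fin n) ℂ, NcRk L n ↔
      ¬ ∃ U V : Submodule ℂ (Fin n → ℂ), (∀ e, ∀ u ∈ U, ∀ v ∈ V, u ⬝ᵥ (L e *ᵥ v) = 0) ∧
        n < Module.finrank ℂ U + Module.finrank ℂ V := by
    intro L
    constructor
    · rintro h ⟨U, V, h1, h2⟩
      have := h U V h1
      omega
    · intro h U V h1
      by_contra h2
      exact h ⟨U, V, h1, by omega⟩
  have hnull : ∀ L : Fin m → Matrix (Fin n) (Fin n) ℂ,
      (∀ t a b : ℕ, t ≤ n * N * N → a ≤ n * N * N → b ≤ n * N * N →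
        (ev L (TT ℂ N ζ t a b)).det = 0) → ¬ NcRk L n := by
    intro L h h1
    obtain ⟨t, a, b, ht, ha, hb, h2⟩ := det_hit ζ hζ L hN h1
    exact h2 (h t a b ht ha hb)
  have hzero : ∀ (L : Fin m → Matrix (Fin n) (Fin n) ℂ),
      (∀ f : PT m n, IsSemi f → val f L = val f 0) → ∀ t a b : ℕ,
        (ev L (TT ℂ N ζ t a b)).det = 0 := by
    intro L h t a b
    have h1 := h (dY (TT ℂ N ζ t a b)) (dY_semi _)
    rw [val_dY, val_dY] at h1
    rw [h1]
    have h2 : ev (0 : Fin m → Matrix (Fin n) (Fin n) ℂ) (TT ℂ N ζ t a b) = 0 := by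
      unfold ev
      refine Finset.sum_eq_zero fun e _ => ?_
      ext i j
      simp [kroneckerMap_apply]
    rw [h2]
    have : Nonempty (Fin n × Fin N) := ⟨(⟨0, hn⟩, 0)⟩
    exact Matrix.det_zero
  refine ⟨fun t a b => ⟨?_, dY_semi _, fun L => val_dY _ L⟩, fun L => ⟨⟨?_, ?_⟩, ⟨?_, ?_⟩⟩,
    fun f hf => noether_explicit ζ hζ hN f hf, fun Y g h hg hh A l p => eInv_inv g h hg hh A Y l p,
    fun A B h1 h2 d S => separate ζ ζ' hζ hζ' hN A B h1 h2 S⟩
  · have h := dY_hom (n := n) (TT ℂ (m := m) N ζ t a b)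
    rwa [Fintype.card_fin] at h
  · intro h f hf
    exact val_of_not_full f hf L (hnull L h)
  · intro h t a b _ _ _
    exact hzero L h t a b
  · intro h
    by_contra h1
    exact hnull L (fun t a b _ _ _ => hzero L h t a b) ((hfull L).2 h1)
  · intro h f hf
    exact val_of_not_full f hf L fun h1 => (hfull L).1 h1 h

end Pool.Agent.Results.MP_e2be99_lc.MatrixSemiInvariants
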